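import Pool.Agent.H57.RQ.Sym
import Pool.Agent.H63.MA.GFrob

/-!
# [H57 RQ KMK] Kummer theory of order `p ^ k`, 200-300 lines. File Pool/Agent/H57/RQ/Kmk.lean

`E` a number field with a primitive `q`-th root of unity `z`, `q = p ^ k`, `Ω` an algebraic closure.
* `kmk`: every character `χ : Gal(Ω/E) → ZMod q` of finite type is the Kummer character of some `δ ∈ E^*`: `β ^ q = δ`, `σ β = z ^ χ(σ) β`. (`H63.MA.kc_all` is the case of a prime; Hilbert 90 for the finite Galois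
  extension `M/E` on which `χ` lives: Lagrange resolvent `β = ∑_(g ∈ Gal(M/E)) z ^ (- χ g) g y ≠ 0` for some `y` (Dedekind), or `groupCohomology.isMulCoboundary₁_of_isMulCocycle₁_of_aut_to_units`.)
* `kmk_ord`: `w ∤ p`, `P` a prime of `𝓞 Ω` over `w`, `χ = 0` on the inertia group of `P`: `q ∣ ord w δ`. Let `π` with `ord w π = 1` (`exists_unif`), `LD` from `exists_LD` for the order `p`, but at a prime `L.P` over `w`; the
  hypothesis is therefore for all primes `P` over `w`. `δ = π ^ n u`, `ϖ, y ∈ Ω`, `ϖ ^ q = π`, `y ^ q = u`, `ϖ ^ (p^(k-1)) = L.w` up to changing `ϖ` by a root of unity. `t = L.t`: `t ϖ = z ^ m ϖ` with `z ^ (m p^(k-1)) = ζ`, so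
  `p ∤ m`; `t y = z ^ i y` and `t y ≡ y` (inertia), so `z ^ i ≡ 1` modulo `P`, `i = 0` (`sq_zeta`, or: `∏ (1 - z ^ j) = q` is a unit at `P`). `t β = z ^ (m n) β = β`, `q ∣ n`.
* `kmk_fr`: `q ∣ ord w δ`, `F x - x ^ N w ∈ P`: `χ F = lg q z w (δ π ^ (- ord w δ))` for `ord w π = 1`. `δ = π ^ n u`, `q ∣ n`, `β = π ^ (n/q) y`, `y ^ q = u`, `F y = z ^ (χ F) y`, `F y ≡ y ^ N w = y u ^ ((N w - 1)/q)`; so
  `u ^ ((N w - 1)/q) ≡ z ^ (χ F)`. (model: `gfrob_unit` in H63/MA/GFrob.lean, which treats the same for a prime order; `y` may have denominators: multiply `u` by a `q`-th power of an element of `𝓞 E` prime to `w`.)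
-/

set_option autoImplicit false

open scoped NumberField
open IsDedekindDomain
open scoped Classical

noncomputable section

namespace H57.RQ

open H63.MA

variable {E : Type} [Field E] [NumberField E] {Ω : Type} [Field Ω] [Algebra E Ω] [IsAlgClosure E Ω]
  {p k : ℕ} {z : E}

/-- Hilbert 90 for a character of order `n` -/
private theorem kmk_hil {n : ℕ} [NeZero n] (hz : IsPrimitiveRoot z n) (χ : Gal(Ω/E) → ZMod n)
    (hχ : ∀ σ τ, χ (σ * τ) = χ σ + χ τ) (M : IntermediateField E Ω) [FiniteDimensional E M]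
    (hM : ∀ σ ∈ M.fixingSubgroup, χ σ = 0) :
    ∃ B : Ω, B ≠ 0 ∧ ∀ σ : Gal(Ω/E), σ B = algebraMap E Ω z ^ (χ σ).val * B := by
  classical
  have : Fintype (M →ₐ[E] Ω) := Fintype.ofFinite _
  have hz0 : algebraMap E Ω z ≠ 0 := by
    intro h
    exact hz.ne_zero (NeZero.ne n) ((map_eq_zero _).1 h)
  have hadd : ∀ a b : ZMod n, algebraMap E Ω z ^ (a + b).val =
      algebraMap E Ω z ^ a.val * algebraMap E Ω z ^ b.val := by
    intro a b
    have h1 : algebraMap E Ω z ^ n = 1 := by rw [← map_pow, hz.pow_eq_one, map_one]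
    rw [← pow_add, ZMod.val_add, ← pow_eq_pow_mod _ h1]
  have h1 : χ 1 = 0 := by
    have h := hχ 1 1
    rw [mul_one] at h
    exact left_eq_add.1 h
  have hinv : ∀ σ, χ σ⁻¹ = -χ σ := by
    intro σ
    have h := hχ σ⁻¹ σ
    rw [inv_mul_cancel, h1] at h
    exact (neg_eq_of_add_eq_zero_left h.symm).symm
  -- the restriction
  obtain ⟨r, hr⟩ : ∃ r : Gal(Ω/E) → (M →ₐ[E] Ω), ∀ u x, r u x = u (x : Ω) :=
    ⟨fun u => (u : Ω →ₐ[E] Ω).comp M.val, fun u x => rfl⟩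
  have hχr : ∀ u v : Gal(Ω/E), r u = r v → χ u = χ v := by
    intro u v huv
    have h1 : χ (v⁻¹ * u) = 0 := by
      apply hM
      rw [IntermediateField.mem_fixingSubgroup_iff]
      intro x hx
      have h2 := DFunLike.congr_fun huv ⟨x, hx⟩
      rw [hr, hr] at h2
      simp only at h2
      rw [AlgEquiv.mul_apply, h2, ← AlgEquiv.mul_apply, inv_mul_cancel]
      rfl
    rw [hχ, hinv] at h1
    exact (neg_add_eq_zero.1 h1).symm
  obtain ⟨c, hc⟩ : ∃ c : (M →ₐ[E] Ω) → Ω, c = fun φ => if h : ∃ v : Gal(Ω/E), r v = φ then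
      (algebraMap E Ω z ^ (χ h.choose).val)⁻¹ else 0 := ⟨_, rfl⟩
  have hc1 : ∀ v : Gal(Ω/E), c (r v) = (algebraMap E Ω z ^ (χ v).val)⁻¹ := by
    intro v
    have h : ∃ w : Gal(Ω/E), r w = r v := ⟨v, rfl⟩
    rw [hc]
    simp only [dif_pos h]
    rw [hχr _ _ h.choose_spec]
  have hc2 : ∀ φ, (¬ ∃ v : Gal(Ω/E), r v = φ) → c φ = 0 := by
    intro φ h
    rw [hc]
    simp only [dif_neg h]
  have hcK : ∀ (φ) (u : Gal(Ω/E)), u (c φ) = c φ := by
    intro φ u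
    by_cases h : ∃ v : Gal(Ω/E), r v = φ
    · obtain ⟨v, rfl⟩ := h
      rw [hc1, map_inv₀, map_pow, AlgEquiv.commutes]
    · rw [hc2 φ h, map_zero]
  -- composition with `u`
  obtain ⟨T, hT⟩ : ∃ T : Gal(Ω/E) → (M →ₐ[E] Ω) → (M →ₐ[E] Ω), ∀ u φ x,
      T u φ x = u (φ x) :=
    ⟨fun u φ => (u : Ω →ₐ[E] Ω).comp φ, fun u φ x => rfl⟩
  have hTinv : ∀ (u : Gal(Ω/E)) (φ), T u⁻¹ (T u φ) = φ := by
    intro u φ
    ext x
    rw [hT, hT, ← AlgEquiv.mul_apply, inv_mul_cancel]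
    rfl
  have hTb : ∀ u : Gal(Ω/E), Function.Bijective (T u) := by
    intro u
    constructor
    · intro φ ψ h
      rw [← hTinv u φ, h, hTinv u ψ]
    · intro φ
      refine ⟨T u⁻¹ φ, ?_⟩
      have := hTinv u⁻¹ φ
      rwa [inv_inv] at this
  have hTr : ∀ u v : Gal(Ω/E), T u (r v) = r (u * v) := by
    intro u v
    ext x
    rw [hT, hr, hr, ← AlgEquiv.mul_apply]
  have hcT : ∀ (u : Gal(Ω/E)) (φ), c φ = algebraMap E Ω z ^ (χ u).val * c (T u φ) := by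
    intro u φ
    by_cases h : ∃ v : Gal(Ω/E), r v = φ
    · obtain ⟨v, rfl⟩ := h
      rw [hTr, hc1, hc1, hχ, hadd, mul_inv, ← mul_assoc,
        mul_inv_cancel₀ (pow_ne_zero _ hz0), one_mul]
    · rw [hc2 φ h, hc2, mul_zero]
      rintro ⟨v, hv⟩
      apply h
      refine ⟨u⁻¹ * v, ?_⟩
      rw [← hTr, hv, hTinv]
  -- independence
  have hne : ∃ x : M, ∑ φ : (M →ₐ[E] Ω), c φ * φ x ≠ 0 := by
    by_contra hcon
    push Not at hcon
    have hli := linearIndependent_toLinearMap E M Ω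
    rw [Fintype.linearIndependent_iff] at hli
    have h1 := hli c (by
      ext x
      rw [LinearMap.sum_apply]
      simpa using hcon x) (r 1)
    rw [hc1] at h1
    exact inv_ne_zero (pow_ne_zero _ hz0) h1
  obtain ⟨x, hx⟩ := hne
  refine ⟨_, hx, fun u => ?_⟩
  rw [map_sum]
  calc ∑ φ : (M →ₐ[E] Ω), u (c φ * φ x) =
      ∑ φ : (M →ₐ[E] Ω), algebraMap E Ω z ^ (χ u).val * (c (T u φ) * T u φ x) := by
        refine Finset.sum_congr rfl fun φ _ => ?_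
        rw [map_mul, hcK, hcT u φ, hT, mul_assoc]
    _ = algebraMap E Ω z ^ (χ u).val * ∑ φ : (M →ₐ[E] Ω), c (T u φ) * T u φ x := by
        rw [Finset.mul_sum]
    _ = _ := by
        rw [(hTb u).sum_comp (fun φ => c φ * φ x)]

theorem kmk (hp : p.Prime) (hz : IsPrimitiveRoot z (p ^ k)) (χ : Gal(Ω/E) → ZMod (p ^ k))
    (hχ : ∀ σ τ, χ (σ * τ) = χ σ + χ τ)
    (hft : ∃ M : IntermediateField E Ω, FiniteDimensional E M ∧ ∀ σ ∈ M.fixingSubgroup, χ σ = 0) :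
    ∃ (δ : Eˣ) (β : Ω), β ^ p ^ k = algebraMap E Ω (δ : E) ∧
      ∀ σ : Gal(Ω/E), σ β = algebraMap E Ω z ^ (χ σ).val * β := by
  have : IsGalois E Ω := IsAlgClosure.isGalois E Ω
  have : NeZero (p ^ k) := ⟨pow_ne_zero _ hp.ne_zero⟩
  obtain ⟨M, hMf, hM⟩ := hft
  have := hMf
  obtain ⟨B, hB0, hB⟩ := kmk_hil hz χ hχ M hM
  have hz1 : algebraMap E Ω z ^ p ^ k = 1 := by rw [← map_pow, hz.pow_eq_one, map_one]
  have hfix : ∀ σ : Gal(Ω/E), σ (B ^ p ^ k) = B ^ p ^ k := by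
    intro σ
    rw [map_pow, hB σ, mul_pow, ← pow_mul, mul_comm _ (p ^ k), pow_mul, hz1, one_pow, one_mul]
  obtain ⟨a, ha⟩ := (InfiniteGalois.mem_range_algebraMap_iff_fixed (B ^ p ^ k)).2 hfix
  have ha0 : a ≠ 0 := by
    rintro rfl
    rw [map_zero] at ha
    exact pow_ne_zero _ hB0 ha.symm
  refine ⟨Units.mk0 a ha0, B, ?_, hB⟩
  rw [Units.val_mk0, ha]

/-- an integral multiple of a root of a unit -/
private theorem kmk_int {q : ℕ} (hq : 0 < q) {w : Pl E} {P : Ideal (𝓞 Ω)}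
    (hPw : P.under (𝓞 E) = w.asIdeal) (u : Eˣ) (hu : ord w u = 0) (y : Ω)
    (hy : y ^ q = algebraMap E Ω (u : E)) (hP : P.IsPrime) :
    ∃ (c : 𝓞 Ω) (b m : 𝓞 E), b ∉ w.asIdeal ∧ (c : Ω) = algebraMap E Ω (b : E) * y ∧ c ∉ P ∧
      c ^ q = algebraMap (𝓞 E) (𝓞 Ω) m ∧ (m : E) = (b : E) ^ q * u := by
  obtain ⟨a, b, ha, hb, hab⟩ := H38.TD.exists_int_div w u (by rw [← ord_eq_od]; exact hu)
  obtain ⟨r, rfl⟩ : ∃ r, q = r + 1 := ⟨q - 1, by omega⟩
  have e1 : ((b ^ r * a : 𝓞 E) : E) = (b : E) ^ (r + 1) * u := by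
    have e2 : ((b ^ r * a : 𝓞 E) : E) = (b : E) ^ r * (a : E) := by
      push_cast
      rfl
    rw [e2, ← hab, pow_succ]
    ring
  have hCp : (algebraMap E Ω (b : E) * y) ^ (r + 1) = algebraMap E Ω ((b ^ r * a : 𝓞 E) : E) := by
    rw [mul_pow, hy, e1, map_mul, map_pow]
  have hint : IsIntegral ℤ (algebraMap E Ω (b : E) * y) := by
    refine IsIntegral.of_pow hq ?_
    rw [hCp]
    exact (NumberField.RingOfIntegers.isIntegral_coe (b ^ r * a)).algebraMap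
  obtain ⟨c, hc⟩ : ∃ c : 𝓞 Ω, (c : Ω) = algebraMap E Ω (b : E) * y := ⟨⟨_, hint⟩, rfl⟩
  have h2 : c ^ (r + 1) = algebraMap (𝓞 E) (𝓞 Ω) (b ^ r * a) := by
    apply NumberField.RingOfIntegers.ext
    show (c : Ω) ^ (r + 1) = algebraMap E Ω ((b ^ r * a : 𝓞 E) : E)
    rw [hc, hCp]
  refine ⟨c, b, b ^ r * a, hb, hc, ?_, h2, e1⟩
  intro hmem
  have h1 := Ideal.pow_mem_of_mem P hmem (r + 1) hq
  rw [h2, ← Ideal.mem_under, hPw] at h1
  rcases w.isPrime.mem_or_mem h1 with h3 | h3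
  · exact hb (w.isPrime.mem_of_pow_mem _ h3)
  · exact ha h3

private theorem kmk_val {n : ℕ} (hn : n ≠ 0) (hz : IsPrimitiveRoot z n) (w : Pl E) :
    w.valuation E z = 1 := by
  have h1 : w.valuation E z ^ n = 1 := by
    rw [← map_pow, hz.pow_eq_one, map_one]
  exact (pow_eq_one_iff.1 h1).resolve_right hn

/-- the integer `z` -/
private theorem kmk_zint {n : ℕ} (hn : 0 < n) (hz : IsPrimitiveRoot z n) :
    ∃ Z : 𝓞 E, (Z : E) = z := ⟨⟨z, hz.isIntegral hn⟩, rfl⟩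

private theorem kmk_mem (w : Pl E) {P : Ideal (𝓞 Ω)} (hPw : P.under (𝓞 E) = w.asIdeal)
    (x : 𝓞 E) : algebraMap (𝓞 E) (𝓞 Ω) x ∈ P ↔ x ∈ w.asIdeal := by
  rw [← hPw]
  rfl

theorem kmk_ord (hp : p.Prime) (hk : 1 ≤ k) (hz : IsPrimitiveRoot z (p ^ k))
    {χ : Gal(Ω/E) → ZMod (p ^ k)} {δ : Eˣ} {β : Ω} (hβ : β ^ p ^ k = algebraMap E Ω (δ : E))
    (hχ : ∀ σ : Gal(Ω/E), σ β = algebraMap E Ω z ^ (χ σ).val * β) {w : Pl E} (hw : ¬ Above p w)
    (hI : ∀ P : Ideal (𝓞 Ω), P.IsPrime → P.under (𝓞 E) = w.asIdeal →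
      ∀ τ ∈ P.inertia Gal(Ω/E), χ τ = 0) : ((p ^ k : ℕ) : ℤ) ∣ ord w δ := by
  have hac : IsAlgClosed Ω := IsAlgClosure.isAlgClosed E
  have hq : 0 < p ^ k := pow_pos hp.pos _
  have : NeZero (p ^ k) := ⟨hq.ne'⟩
  have hinj := (algebraMap E Ω).injective
  obtain ⟨j, rfl⟩ : ∃ j, k = j + 1 := ⟨k - 1, by omega⟩
  have hζ : IsPrimitiveRoot (z ^ p ^ j) p := by
    refine hz.pow hq ?_
    rw [pow_succ]
  obtain ⟨π, hπ⟩ := exists_unif w
  obtain ⟨L⟩ := exists_LD (v := w) Ω hp hζ hw hπ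
  obtain ⟨ϖ, hϖ⟩ := IsAlgClosed.exists_pow_nat_eq L.w (pow_pos hp.pos j)
  have hϖq : ϖ ^ p ^ (j + 1) = algebraMap E Ω (π : E) := by
    rw [pow_succ, pow_mul, hϖ, L.hw]
  have hϖ0 : ϖ ≠ 0 := by
    intro h0
    rw [h0, zero_pow hq.ne'] at hϖq
    exact π.ne_zero (hinj (by rw [map_zero]; exact hϖq.symm))
  have hβ0 : β ≠ 0 := by
    intro h0
    rw [h0, zero_pow hq.ne'] at hβ
    exact δ.ne_zero (hinj (by rw [map_zero]; exact hβ.symm))
  have hzΩ : IsPrimitiveRoot (algebraMap E Ω z) (p ^ (j + 1)) := hz.map_of_injective hinj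
  have hz0 : algebraMap E Ω z ≠ 0 := hzΩ.ne_zero hq.ne'
  -- the action on the root of the uniformizer
  obtain ⟨m, hm⟩ := H38.TD.root_ratio (K := E) hq hz (x := L.t ϖ) hϖ0
    (by rw [← map_pow, hϖq, AlgEquiv.commutes])
  have hmp : ¬ p ∣ m := by
    intro hd
    have h1 : L.t L.w = L.w := by
      obtain ⟨m', rfl⟩ := hd
      rw [← hϖ, map_pow, hm, mul_pow, ← pow_mul]
      have h2 : p * m' * p ^ j = p ^ (j + 1) * m' := by ring
      rw [h2, pow_mul, hzΩ.pow_eq_one, one_pow, one_mul]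
    rw [L.act] at h1
    have hLw0 : L.w ≠ 0 := by
      rw [← hϖ]
      exact pow_ne_zero _ hϖ0
    have h3 : algebraMap E Ω (z ^ p ^ j) = 1 := by
      have h4 : algebraMap E Ω (z ^ p ^ j) * L.w = 1 * L.w := by rw [h1, one_mul]
      exact mul_right_cancel₀ hLw0 h4
    rw [← map_one (algebraMap E Ω)] at h3
    exact hζ.ne_one hp.one_lt (hinj h3)
  -- the unit part
  set n : ℤ := ord w δ with hn
  set u : Eˣ := δ * π ^ (-n) with hu
  have hu0 : ord w u = 0 := by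
    rw [hu, ord_mul, ord_zpow, hπ]
    ring
  set y : Ω := β * ϖ ^ (-n) with hy
  have hyq : y ^ p ^ (j + 1) = algebraMap E Ω (u : E) := by
    rw [hy, mul_pow, hβ, ← zpow_natCast, ← zpow_mul, mul_comm (-n), zpow_mul, zpow_natCast, hϖq,
      hu, Units.val_mul, map_mul, Units.val_zpow_eq_zpow_val, map_zpow₀]
  have hy0 : y ≠ 0 := mul_ne_zero hβ0 (zpow_ne_zero _ hϖ0)
  obtain ⟨i, hi⟩ := H38.TD.root_ratio (K := E) hq hz (x := L.t y) hy0
    (by rw [← map_pow, hyq, AlgEquiv.commutes])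
  have hi1 : algebraMap E Ω z ^ i = 1 := by
    obtain ⟨c, b, d, hb, hcb, hcP, hcq, hd⟩ := kmk_int hq L.under u hu0 y hyq L.prime
    obtain ⟨Z, hZ⟩ := kmk_zint hq hz
    have h1 : L.t • c = (algebraMap (𝓞 E) (𝓞 Ω) Z) ^ i * c := by
      apply NumberField.RingOfIntegers.ext
      show L.t (c : Ω) = (algebraMap E Ω (Z : E)) ^ i * (c : Ω)
      rw [hcb, map_mul, AlgEquiv.commutes, hi, hZ]
      ring
    have h2 := L.ht c
    have h2' : L.t • c - c ∈ L.P := h2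
    rw [h1, ← sub_one_mul] at h2'
    have h3 := (L.prime.mem_or_mem h2').resolve_right hcP
    have h4 : algebraMap (𝓞 E) (𝓞 Ω) (Z ^ i - 1) ∈ L.P := by
      rw [map_sub, map_pow, map_one]
      exact h3
    rw [kmk_mem w L.under] at h4
    have h5 := (symb_mem w (Z ^ i - 1)).2 h4
    have h6 : algebraMap (𝓞 E) E (Z ^ i - 1) = z ^ i - 1 := by
      rw [map_sub, map_pow, map_one, ← hZ]
    rw [h6, ← symb_rs_eq_iff w (by rw [map_pow, kmk_val hq.ne' hz w, one_pow]) (by rw [map_one]),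
      symb_rs_one, symb_rs_pow w (kmk_val hq.ne' hz w).le] at h5
    have h7 := (sq_zeta hp hz hw).dvd_of_pow_eq_one i h5
    exact (hzΩ.pow_eq_one_iff_dvd i).2 h7
  -- the action on `β`
  have h1 : L.t β = algebraMap E Ω z ^ ((m : ℤ) * n) * β := by
    have h2 : β = y * ϖ ^ n := by
      rw [hy, mul_assoc, ← zpow_add₀ hϖ0, neg_add_cancel, zpow_zero, mul_one]
    rw [h2, map_mul, hi, hi1, one_mul, map_zpow₀, hm, mul_zpow, ← zpow_natCast, ← zpow_mul]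
    ring
  have h2 : L.t β = β := by
    rw [hχ, hI L.P L.prime L.under L.t L.ht, ZMod.val_zero, pow_zero, one_mul]
  rw [h2] at h1
  have h3 : algebraMap E Ω z ^ ((m : ℤ) * n) = 1 := by
    have h4 : algebraMap E Ω z ^ ((m : ℤ) * n) * β = 1 * β := by rw [← h1, one_mul]
    exact mul_right_cancel₀ hβ0 h4
  have h5 := (hzΩ.zpow_eq_one_iff_dvd _).1 h3
  have h6 : IsCoprime ((p ^ (j + 1) : ℕ) : ℤ) (m : ℤ) := by
    rw [Nat.isCoprime_iff_coprime]
    exact Nat.Coprime.pow_left _ ((Nat.Prime.coprime_iff_not_dvd hp).2 hmp)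
  exact h6.dvd_of_dvd_mul_left h5

theorem kmk_fr (hp : p.Prime) (hz : IsPrimitiveRoot z (p ^ k))
    {χ : Gal(Ω/E) → ZMod (p ^ k)} {δ : Eˣ} {β : Ω} (hβ : β ^ p ^ k = algebraMap E Ω (δ : E))
    (hχ : ∀ σ : Gal(Ω/E), σ β = algebraMap E Ω z ^ (χ σ).val * β) {w : Pl E} (hw : ¬ Above p w)
    (hd : ((p ^ k : ℕ) : ℤ) ∣ ord w δ) {π : Eˣ} (hπ : ord w π = 1) {P : Ideal (𝓞 Ω)}
    (hP : P.IsPrime) (hPw : P.under (𝓞 E) = w.asIdeal) {F : Gal(Ω/E)}
    (hF : ∀ x : 𝓞 Ω, F • x - x ^ nm w ∈ P) :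
    χ F = lg (p ^ k) z w (δ * (π ^ ord w δ)⁻¹) := by
  have hq : 0 < p ^ k := pow_pos hp.pos _
  have : NeZero (p ^ k) := ⟨hq.ne'⟩
  have hinj := (algebraMap E Ω).injective
  obtain ⟨n, hn⟩ := hd
  set u : Eˣ := δ * (π ^ ord w δ)⁻¹ with hu
  have hu0 : ord w u = 0 := by
    rw [hu, ord_mul, ord_inv, ord_zpow, hπ]
    ring
  set y : Ω := β * algebraMap E Ω (((π ^ n)⁻¹ : Eˣ) : E) with hy
  have hyq : y ^ p ^ k = algebraMap E Ω (u : E) := by
    have h1 : (((π ^ n)⁻¹ : Eˣ) ^ p ^ k : Eˣ) = (π ^ ord w δ)⁻¹ := by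
      rw [hn, inv_pow, ← zpow_natCast (π ^ n), ← zpow_mul, mul_comm]
    rw [hy, mul_pow, hβ, ← map_pow, ← Units.val_pow_eq_pow_val, h1, hu, Units.val_mul, map_mul]
  obtain ⟨c, b, d, hb, hcb, hcP, hcq, hd⟩ := kmk_int hq hPw u hu0 y hyq hP
  obtain ⟨Z, hZ⟩ := kmk_zint hq hz
  set j : ℕ := (χ F).val with hj
  have hFc : F • c = (algebraMap (𝓞 E) (𝓞 Ω) Z) ^ j * c := by
    apply NumberField.RingOfIntegers.ext
    show F (c : Ω) = (algebraMap E Ω (Z : E)) ^ j * (c : Ω)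
    rw [hcb, map_mul, AlgEquiv.commutes, hy, map_mul, AlgEquiv.commutes, hχ, hZ]
    ring
  obtain ⟨e, he⟩ := sq_dvd hp hz hw
  have hN : nm w = p ^ k * e + 1 := by
    have := one_lt_nm w
    omega
  have hq2 : (nm w - 1) / p ^ k = e := by
    rw [he, Nat.mul_div_cancel_left _ hq]
  have h1 : algebraMap (𝓞 E) (𝓞 Ω) (d ^ e - Z ^ j) ∈ P := by
    have h2 := hF c
    rw [hFc, hN, pow_succ, pow_mul, hcq, ← sub_mul] at h2
    have h3 := (hP.mem_or_mem h2).resolve_right hcP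
    rw [map_sub, map_pow, map_pow, ← neg_sub]
    exact P.neg_mem h3
  rw [kmk_mem w hPw] at h1
  have hbv : w.valuation E (b : E) = 1 :=
    (IsDedekindDomain.HeightOneSpectrum.valuation_eq_one_iff_notMem (K := E) w).2 hb
  have huv : w.valuation E (u : E) = 1 := (ord_eq_zero_iff w u).1 hu0
  have hdv : w.valuation E (d : E) = 1 := by
    rw [hd, map_mul, map_pow, hbv, huv, one_pow, one_mul]
  have h4 := (symb_mem w (d ^ e - Z ^ j)).2 h1
  have h5 : algebraMap (𝓞 E) E (d ^ e - Z ^ j) = (d : E) ^ e - z ^ j := by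
    rw [map_sub, map_pow, map_pow, ← hZ]
  rw [h5, ← symb_rs_eq_iff w (by rw [map_pow, hdv, one_pow])
    (by rw [map_pow, kmk_val hq.ne' hz w, one_pow]), symb_rs_pow w hdv.le,
    symb_rs_pow w (kmk_val hq.ne' hz w).le, hd, symb_rs_mul w (by rw [map_pow, hbv, one_pow])
    huv.le, symb_rs_pow w hbv.le, mul_pow, ← pow_mul, ← he, symb_pow_card w (symb_rs_ne w hbv),
    one_mul] at h4
  symm
  rw [lq_iff hp hz hw hu0, hq2]
  exact h4

end H57.RQ
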