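import Pool.Agent.H57.RQ.Kap

/-!
# [H57 RQ FNM] the weights in `K(η^(1/p))`, 120-180 lines. File Pool/Agent/H57/RQ/Fnm.lean

`L = K(η^(1/p))`, `KP` for `κ` on `K` and for `κ'` on `L`, `lam` the weights of a law of order `p` on `L`, `lam w = 1` for `w` of prime norm. For `w₁, w₂ ∤ p` there is `i` with `κ' w - κ (v(w)) = i lam w` for `w = w₁, w₂`, and
also for `w₀`, a prime `∤ p` of prime norm.
Proof: `x ∈ K^*` with `Pk p (k+1) x` and `ord v x = 1` for `v = v(w₀), v(w₁), v(w₂)` (`pn`, `dnv`). `ord w (inc x) = 1` for `w = w_i`: `L / K` is unramified at `v ∤ p` (`ord v η = 0`: `split_case`, `nonsplit_case`,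
`inert_case`, `unram_case` with `c = η`). For `b ∈ L^*`: `Sk_L(inc x, b) = Sk_K(x, N b)` (`nc_sum`), `KP` twice and `em_inj`, `nc_b1` with `t = κ`:
`∑_w (κ' w - κ (v(w))) b1_w(inc x, b) = 0`. (`pk_inc`; `algebraMap (z ^ p ^ k) = (algebraMap z) ^ p ^ k`.) `rel_unique` for `c = inc x` (not a `p`-th power: `ord` is `1`), `k = lam` and `k' = κ' - κ`, both set to `0` at `w ∣ p` and
at split `w`: `a lam + a' (κ' - κ) = 0` on the non-split `w`; `w₀` (`lam = 1`) shows `a' ≠ 0`. Put `i = - a / a'`.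
* `w0`: there is `w₀ ∤ p` of prime norm (`H1.AR.knn` for an element which is not a `p`-th power, `Ideal.finite_factors` not needed: `F = ∅`).
-/

set_option autoImplicit false

open scoped NumberField
open IsDedekindDomain
open scoped Classical

noncomputable section

namespace H57.RQ

open H63.MA

theorem fnm_eta {K : Type} [Field K] [NumberField K] {p k : ℕ} (hp : p.Prime) {z : K} {M : ℕ}
    {η : Kˣ} (he : Et p k z M η) (v : Pl K) : ord v η = 0 := by
  have h1 : η ^ p ^ M = 1 := by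
    apply Units.ext
    rw [Units.val_pow_eq_pow_val, he.prim.pow_eq_one, Units.val_one]
  have h2 := ord_pow v η (p ^ M)
  rw [h1, ord_one] at h2
  rcases mul_eq_zero.1 h2.symm with h3 | h3
  · exact absurd (by exact_mod_cast h3) (pow_pos hp.pos M).ne'
  · exact h3

theorem fnm {p k : ℕ} (hp : p.Prime) (hp2 : p ≠ 2) {K : Type} [Field K] [NumberField K] {L : Type}
    [Field L] [NumberField L] [Algebra K L] {z : K} (hz : IsPrimitiveRoot z (p ^ (k + 1))) {M : ℕ}
    {η : Kˣ} (he : Et p k z M η) (H : Kum p K (z ^ p ^ k) η L) {κ : Pl K → ZMod p}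
    (hκ : KP p k z κ) {κ' : Pl L → ZMod p} (hκ' : KP p k (algebraMap K L z) κ')
    {lam : Pl L → ZMod p}
    (hlam : ∀ x : Lˣ, Pk p 1 x → ∀ a, ∑ᶠ w, lam w * b1 p (algebraMap K L (z ^ p ^ k)) w x a = 0)
    (hone : ∀ w : Pl L, ¬ Above p w → (nm w).Prime → lam w = 1) {w₀ w₁ w₂ : Pl L}
    (h0 : ¬ Above p w₀) (h0' : (nm w₀).Prime) (h1 : ¬ Above p w₁) (h2 : ¬ Above p w₂) :
    ∃ i : ZMod p, κ' w₀ - κ (dnv K w₀) = i ∧ κ' w₁ - κ (dnv K w₁) = i * lam w₁ ∧
      κ' w₂ - κ (dnv K w₂) = i * lam w₂ := by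
  have : Fact p.Prime := ⟨hp⟩
  have hζ := col_zeta hp hz
  have hζL : IsPrimitiveRoot (algebraMap K L (z ^ p ^ k)) p :=
    hζ.map_of_injective (algebraMap K L).injective
  have hdn : ∀ w : Pl L, ¬ Above p w → ¬ Above p (dnv K w) := fun w hw h =>
    hw ((above_over (dnv_over K w) p).2 h)
  obtain ⟨x, hx, hord⟩ := pn hp hp2 (k + 1) {dnv K w₀, dnv K w₁, dnv K w₂} (by
    intro v hv
    rcases Finset.mem_insert.1 hv with rfl | hv
    · exact hdn _ h0
    rcases Finset.mem_insert.1 hv with rfl | hv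
    · exact hdn _ h1
    · rw [Finset.mem_singleton.1 hv]
      exact hdn _ h2)
  have hor : ∀ w : Pl L, ¬ Above p w → dnv K w ∈ ({dnv K w₀, dnv K w₁, dnv K w₂} : Finset (Pl K)) →
      ord w (inc K L x) = 1 := by
    intro w hw hm
    rw [unram_case hp hζ H (hdn w hw) (by rw [fnm_eta hp he]; exact dvd_zero _) (dnv_over K w) x]
    exact hord _ hm
  have ho0 := hor w₀ h0 (Finset.mem_insert_self _ _)
  have ho1 := hor w₁ h1 (Finset.mem_insert_of_mem (Finset.mem_insert_self _ _))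
  have ho2 := hor w₂ h2 (Finset.mem_insert_of_mem (Finset.mem_insert_of_mem
    (Finset.mem_singleton_self _)))
  have hxL : Pk p (k + 1) (inc K L x) := pk_inc hp hx
  have hsum : ∀ b : Lˣ, ∑ᶠ w, κ' w * b1 p (algebraMap K L (z ^ p ^ k)) w (inc K L x) b =
      ∑ᶠ w, κ (dnv K w) * b1 p (algebraMap K L (z ^ p ^ k)) w (inc K L x) b := by
    intro b
    have e1 := nc_sum hp hp2 hζ H hz x b
    rw [hκ x hx, hκ' _ hxL, nc_b1 hp hp2 hζ H κ x b, ← map_pow] at e1
    have e2 := em_add (k := k) hp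
      (∑ᶠ w, κ' w * b1 p (algebraMap K L (z ^ p ^ k)) w (inc K L x) b -
        ∑ᶠ w, κ (dnv K w) * b1 p (algebraMap K L (z ^ p ^ k)) w (inc K L x) b)
      (∑ᶠ w, κ (dnv K w) * b1 p (algebraMap K L (z ^ p ^ k)) w (inc K L x) b)
    rw [sub_add_cancel, ← e1] at e2
    have e3 := em_inj hp (left_eq_add.1 (e2.trans (add_comm _ _)))
    exact sub_eq_zero.1 e3
  have hfin : ∀ (s : Pl L → ZMod p) (b : Lˣ),
      (Function.support fun w => s w * b1 p (algebraMap K L (z ^ p ^ k)) w (inc K L x) b).Finite := by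
    intro s b
    refine (b1_fin hp hζL (inc K L x) b).subset fun w hw => ?_
    intro h0
    apply hw
    change s w * b1 p (algebraMap K L (z ^ p ^ k)) w (inc K L x) b = 0
    rw [h0, mul_zero]
  have hrel : ∀ s : Pl L → ZMod p,
      (∀ b, ∑ᶠ w, s w * b1 p (algebraMap K L (z ^ p ^ k)) w (inc K L x) b = 0) →
      IsRel p (algebraMap K L (z ^ p ^ k)) (inc K L x) fun w =>
        if Above p w ∨ Spl p (algebraMap K L (z ^ p ^ k)) w (inc K L x) then 0 else s w := by
    intro s hs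
    refine ⟨fun w hw => if_pos hw, fun b => ?_⟩
    refine (finsum_congr fun w => ?_).trans (hs b)
    beta_reduce
    by_cases hw : Above p w
    · rw [if_pos (Or.inl hw), col_of_above hw, zero_mul, mul_zero]
    · by_cases hw' : Spl p (algebraMap K L (z ^ p ^ k)) w (inc K L x)
      · rw [if_pos (Or.inr hw'), col_of_not hw, hw' b, mul_zero, mul_zero]
      · rw [if_neg (by tauto), col_of_not hw]
  have hr1 := hrel lam (hlam _ (col_pk hp k hxL))
  have hr2 := hrel (fun w => κ' w - κ (dnv K w)) (fun b => by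
    have e1 : ∀ w, (κ' w - κ (dnv K w)) * b1 p (algebraMap K L (z ^ p ^ k)) w (inc K L x) b =
        κ' w * b1 p (algebraMap K L (z ^ p ^ k)) w (inc K L x) b -
          κ (dnv K w) * b1 p (algebraMap K L (z ^ p ^ k)) w (inc K L x) b := fun w => sub_mul _ _ _
    simp only [e1]
    rw [finsum_sub_distrib (hfin _ _) (hfin (fun w => κ (dnv K w)) _), hsum b, sub_self])
  have hnp : ¬ IsPow p (inc K L x) := by
    rintro ⟨y, hy⟩
    have e1 := ord_pow w₀ y p
    rw [hy, ho0] at e1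
    have e2 : (p : ℤ) ∣ 1 := ⟨_, e1⟩
    have e3 : (p : ℤ) ≤ 1 := Int.le_of_dvd one_pos e2
    have := hp.one_lt
    omega
  obtain ⟨a, a', haa, hall⟩ := rel_unique hp hζL hnp hr1 hr2
  have hat : ∀ w : Pl L, ¬ Above p w → ord w (inc K L x) = 1 →
      a * lam w + a' * (κ' w - κ (dnv K w)) = 0 := by
    intro w hw ho
    obtain ⟨b, hb⟩ := b1_unif hp hζL hw ho
    have hns : ¬ (Above p w ∨ Spl p (algebraMap K L (z ^ p ^ k)) w (inc K L x)) := by
      rintro (h | h)
      · exact hw h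
      · rw [col_of_not hw] at hb
        exact hb (h b)
    have e1 := hall w
    rw [if_neg hns, if_neg hns] at e1
    exact e1
  have q0 := hat w₀ h0 ho0
  have q1 := hat w₁ h1 ho1
  have q2 := hat w₂ h2 ho2
  rw [hone w₀ h0 h0', mul_one] at q0
  have ha' : a' ≠ 0 := by
    intro h
    rw [h, zero_mul, add_zero] at q0
    rcases haa with h' | h'
    · exact h' q0
    · exact h' h
  refine ⟨-(a / a'), ?_, ?_, ?_⟩
  · field_simp
    linear_combination q0
  · field_simp
    linear_combination q1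
  · field_simp
    linear_combination q2

end H57.RQ
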