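import Pool.Agent.H57.RQ.Def

/-!
# [H57 RQ SYM] the symbol of order `p ^ k`, 200-300 lines (half of it copied). File Pool/Agent/H57/RQ/Sym.lean

Copy of the proofs of `H63/MA/SymB.lean` (`symb_zeta .. lg_of_one1`) and `H63/MA/SymC.lean` for the order `q = p ^ k` in place of the prime `p`. Primality is used only in `symb_zeta`:
here `sq_zeta`: the residue class of `z` has order `q`: for `k = 0` clear; for `k ≥ 1` the `p ^ (k-1)`-th power of it is the class of the primitive `p`-th root of unity `z ^ p ^ (k-1)`, which is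
not `1` (`symb_zeta`), and the `q`-th power is `1` (`IsPrimitiveRoot` from `orderOf_eq_prime_pow`). `dvd_nm` becomes `p ^ k ∣ nm v - 1` (`sq_dvd`).
* `lq_*`: `lg (p ^ k) z v` on `v`-units (`v ∤ p`); `lq_iff`: in terms of the residue field.
* `bk_*`: `Bk`. `bk_fin`: `B v x a = 0` if `ord v x = ord v a = 0` (`finite_ord`). `bk_self`: `1`. `bk_symm`: `B v x a = - B v a x`.
* `bk_cast`: reduction modulo `p ^ k` of the symbol of order `p ^ (k+1)`: `u ^ ((N v - 1) / p ^ k) = (u ^ ((N v - 1) / p ^ (k+1))) ^ p`, so `lg (p ^ k) (z ^ p)` is the cast of `lg (p ^ (k+1)) z`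
  (`lq_iff`). `bk_b1`: the same for the reduction modulo `p`: `b1 p (z ^ p ^ k)`.
* `sk_*`: sums (`finsum_add_distrib`, `AddMonoidHom.map_finsum`).
-/

set_option autoImplicit false

open scoped NumberField
open IsDedekindDomain
open scoped Classical

noncomputable section

namespace H57.RQ

open H63.MA

attribute [local instance] symb_max symb_field symb_finite

variable {K : Type} [Field K] [NumberField K]

section gen

variable {z : K} {q : ℕ} {v : Pl K}

theorem gq_dvd (h1 : v.valuation K z = 1) (h2 : IsPrimitiveRoot (symb_rs v z) q) :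
    q ∣ nm v - 1 :=
  h2.dvd_of_pow_eq_one _ (symb_pow_card v (symb_rs_ne v h1))

theorem gq_pow_val (h1 : v.valuation K z = 1) (n : ℕ) : v.valuation K (z ^ n) = 1 := by
  rw [map_pow, h1, one_pow]

theorem gq_ex (hq : q ≠ 0) (h1 : v.valuation K z = 1) (h2 : IsPrimitiveRoot (symb_rs v z) q)
    {u : Kˣ} (hu : ord v u = 0) :
    ∃ a : ZMod q, v.valuation K ((u : K) ^ ((nm v - 1) / q) - z ^ a.val) < 1 := by
  have : NeZero q := ⟨hq⟩
  rw [ord_eq_zero_iff] at hu
  have h3 : (symb_rs v (u : K) ^ ((nm v - 1) / q)) ^ q = 1 := by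
    rw [← pow_mul, Nat.div_mul_cancel (gq_dvd h1 h2), symb_pow_card v (symb_rs_ne v hu)]
  obtain ⟨i, hi, hi2⟩ := h2.eq_pow_of_pow_eq_one h3
  refine ⟨(i : ZMod q), ?_⟩
  rw [ZMod.val_natCast_of_lt hi, ← symb_rs_eq_iff v (by rw [map_pow, hu, one_pow])
    (by rw [gq_pow_val h1]), symb_rs_pow v hu.le, symb_rs_pow v h1.le, hi2]

theorem gq_lg (hq : q ≠ 0) (h1 : v.valuation K z = 1) (h2 : IsPrimitiveRoot (symb_rs v z) q)
    {u : Kˣ} (hu : ord v u = 0) :
    symb_rs v (u : K) ^ ((nm v - 1) / q) = symb_rs v z ^ (lg q z v u).val := by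
  have h := gq_ex hq h1 h2 hu
  have h3 : v.valuation K ((u : K) ^ ((nm v - 1) / q) - z ^ (lg q z v u).val) < 1 := by
    unfold lg
    rw [dif_pos h]
    exact h.choose_spec
  rw [ord_eq_zero_iff] at hu
  rwa [← symb_rs_eq_iff v (by rw [map_pow, hu, one_pow]) (by rw [gq_pow_val h1]),
    symb_rs_pow v hu.le, symb_rs_pow v h1.le] at h3

theorem gq_iff (hq : q ≠ 0) (h1 : v.valuation K z = 1) (h2 : IsPrimitiveRoot (symb_rs v z) q)
    {u : Kˣ} (hu : ord v u = 0) (a : ZMod q) :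
    lg q z v u = a ↔ symb_rs v (u : K) ^ ((nm v - 1) / q) = symb_rs v z ^ a.val := by
  have : NeZero q := ⟨hq⟩
  rw [gq_lg hq h1 h2 hu]
  constructor
  · intro h
    rw [h]
  · intro h
    exact ZMod.val_injective q (h2.pow_inj (ZMod.val_lt _) (ZMod.val_lt _) h)

theorem gq_one (hq : q ≠ 0) (h1 : v.valuation K z = 1) (h2 : IsPrimitiveRoot (symb_rs v z) q) :
    lg q z v 1 = 0 := by
  rw [gq_iff hq h1 h2 (ord_one v), Units.val_one, symb_rs_one, one_pow, ZMod.val_zero, pow_zero]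

theorem gq_mul (hq : q ≠ 0) (h1 : v.valuation K z = 1) (h2 : IsPrimitiveRoot (symb_rs v z) q)
    {u u' : Kˣ} (hu : ord v u = 0) (hu' : ord v u' = 0) :
    lg q z v (u * u') = lg q z v u + lg q z v u' := by
  have : NeZero q := ⟨hq⟩
  have h0 : ord v (u * u') = 0 := by rw [ord_mul, hu, hu', add_zero]
  rw [gq_iff hq h1 h2 h0]
  have hz1 := (ord_eq_zero_iff v u).1 hu
  have hz1' := (ord_eq_zero_iff v u').1 hu'
  rw [Units.val_mul, symb_rs_mul v hz1.le hz1'.le, mul_pow, gq_lg hq h1 h2 hu,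
    gq_lg hq h1 h2 hu', ← pow_add, ZMod.val_add]
  conv_lhs => rw [← Nat.mod_add_div ((lg q z v u).val + (lg q z v u').val) q]
  rw [pow_add, pow_mul, h2.pow_eq_one, one_pow, mul_one]

theorem gq_zpow (hq : q ≠ 0) (h1 : v.valuation K z = 1) (h2 : IsPrimitiveRoot (symb_rs v z) q)
    {u : Kˣ} (hu : ord v u = 0) (n : ℤ) : lg q z v (u ^ n) = n * lg q z v u := by
  have hn : ∀ m : ℤ, ord v (u ^ m) = 0 := fun m => by rw [ord_zpow, hu, mul_zero]
  have hinv : ord v u⁻¹ = 0 := by rw [ord_inv, hu, neg_zero]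
  have hi : lg q z v u⁻¹ = -lg q z v u := by
    have h3 := gq_mul hq h1 h2 hu hinv
    rw [mul_inv_cancel, gq_one hq h1 h2] at h3
    exact (neg_eq_of_add_eq_zero_right h3.symm).symm
  induction n using Int.induction_on with
  | zero => rw [zpow_zero, gq_one hq h1 h2, Int.cast_zero, zero_mul]
  | succ m ih =>
    rw [zpow_add, zpow_one, gq_mul hq h1 h2 (hn _) hu, ih]
    push_cast
    ring
  | pred m ih =>
    rw [zpow_sub, zpow_one, gq_mul hq h1 h2 (hn _) hinv, ih, hi]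
    push_cast
    ring

theorem gq_one1 (hq : q ≠ 0) (h1 : v.valuation K z = 1) (h2 : IsPrimitiveRoot (symb_rs v z) q)
    {u : Kˣ} (hu : One1 v u) : lg q z v u = 0 := by
  rw [gq_iff hq h1 h2 (ord_of_one1 hu), symb_rs_of_one1 hu, one_pow, ZMod.val_zero, pow_zero]

/-- reduction of the order -/
theorem gq_cast {d : ℕ} {q' : ℕ} (hq' : q' ≠ 0) (hd : d ≠ 0) (hqd : q = q' * d)
    (h1 : v.valuation K z = 1) (h2 : IsPrimitiveRoot (symb_rs v z) q) {u : Kˣ} (hu : ord v u = 0)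
    (hdiv : q' ∣ q) :
    ZMod.castHom hdiv (ZMod q') (lg q z v u) = lg q' (z ^ d) v u := by
  have hq : q ≠ 0 := by
    rw [hqd]
    exact mul_ne_zero hq' hd
  have hn : NeZero q' := ⟨hq'⟩
  have hn2 : NeZero q := ⟨hq⟩
  have h3 : IsPrimitiveRoot (symb_rs v (z ^ d)) q' := by
    rw [symb_rs_pow v h1.le]
    exact h2.pow (Nat.pos_of_ne_zero hq) (by rw [hqd, mul_comm])
  have h4 : v.valuation K (z ^ d) = 1 := gq_pow_val h1 d
  symm
  rw [gq_iff hq' h4 h3 hu, ZMod.castHom_apply, ← ZMod.natCast_val, ZMod.val_natCast,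
    symb_rs_pow v h1.le, ← pow_mul]
  have h5 : (nm v - 1) / q' = (nm v - 1) / q * d := by
    obtain ⟨c, hc⟩ := gq_dvd h1 h2
    rw [hc, Nat.mul_div_cancel_left _ (Nat.pos_of_ne_zero hq), hqd, mul_assoc,
      Nat.mul_div_cancel_left _ (Nat.pos_of_ne_zero hq'), mul_comm]
  rw [h5, pow_mul, gq_lg hq h1 h2 hu, ← pow_mul]
  have h6 : (lg q z v u).val * d = d * ((lg q z v u).val % q') + q * ((lg q z v u).val / q') := by
    conv_lhs => rw [← Nat.mod_add_div (lg q z v u).val q']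
    rw [hqd]
    ring
  rw [h6, pow_add, pow_mul (symb_rs v z) q, h2.pow_eq_one, one_pow, mul_one]

end gen

variable {p k : ℕ} {z : K}

theorem sq_val (hp : p.Prime) (hz : IsPrimitiveRoot z (p ^ k)) (v : Pl K) :
    v.valuation K z = 1 := by
  have h1 : v.valuation K z ^ (p ^ k) = 1 := by
    rw [← map_pow, hz.pow_eq_one, map_one]
  exact (pow_eq_one_iff.1 h1).resolve_right (pow_ne_zero _ hp.ne_zero)

theorem sq_zeta (hp : p.Prime) (hz : IsPrimitiveRoot z (p ^ k)) {v : Pl K} (hv : ¬ Above p v) :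
    IsPrimitiveRoot (symb_rs v z) (p ^ k) := by
  cases k with
  | zero =>
    rw [pow_zero] at hz ⊢
    rw [IsPrimitiveRoot.one_right_iff] at hz ⊢
    rw [hz, symb_rs_one]
  | succ k =>
    have hv1 := sq_val hp hz v
    have h1 : IsPrimitiveRoot (z ^ p ^ k) p := hz.pow (pow_pos hp.pos _) (pow_succ _ _)
    have h2 := symb_zeta hp h1 hv
    rw [symb_rs_pow v hv1.le] at h2
    have h3 : ¬ symb_rs v z ^ p ^ k = 1 := h2.ne_one hp.one_lt
    have h4 : symb_rs v z ^ p ^ (k + 1) = 1 := by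
      rw [← symb_rs_pow v hv1.le, hz.pow_eq_one, symb_rs_one]
    have : Fact p.Prime := ⟨hp⟩
    rw [← orderOf_eq_prime_pow h3 h4]
    exact IsPrimitiveRoot.orderOf _

theorem sq_dvd (hp : p.Prime) (hz : IsPrimitiveRoot z (p ^ k)) {v : Pl K} (hv : ¬ Above p v) :
    p ^ k ∣ nm v - 1 := gq_dvd (sq_val hp hz v) (sq_zeta hp hz hv)

theorem lq_iff (hp : p.Prime) (hz : IsPrimitiveRoot z (p ^ k)) {v : Pl K} (hv : ¬ Above p v)
    {u : Kˣ} (hu : ord v u = 0) (a : ZMod (p ^ k)) :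
    lg (p ^ k) z v u = a ↔ symb_rs v (u : K) ^ ((nm v - 1) / p ^ k) = symb_rs v z ^ a.val :=
  gq_iff (pow_ne_zero _ hp.ne_zero) (sq_val hp hz v) (sq_zeta hp hz hv) hu a

theorem lq_one (hp : p.Prime) (hz : IsPrimitiveRoot z (p ^ k)) {v : Pl K} (hv : ¬ Above p v) :
    lg (p ^ k) z v 1 = 0 :=
  gq_one (pow_ne_zero _ hp.ne_zero) (sq_val hp hz v) (sq_zeta hp hz hv)

theorem lq_mul (hp : p.Prime) (hz : IsPrimitiveRoot z (p ^ k)) {v : Pl K} (hv : ¬ Above p v)
    {u u' : Kˣ} (hu : ord v u = 0) (hu' : ord v u' = 0) :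
    lg (p ^ k) z v (u * u') = lg (p ^ k) z v u + lg (p ^ k) z v u' :=
  gq_mul (pow_ne_zero _ hp.ne_zero) (sq_val hp hz v) (sq_zeta hp hz hv) hu hu'

theorem lq_zpow (hp : p.Prime) (hz : IsPrimitiveRoot z (p ^ k)) {v : Pl K} (hv : ¬ Above p v)
    {u : Kˣ} (hu : ord v u = 0) (n : ℤ) : lg (p ^ k) z v (u ^ n) = n * lg (p ^ k) z v u :=
  gq_zpow (pow_ne_zero _ hp.ne_zero) (sq_val hp hz v) (sq_zeta hp hz hv) hu n

theorem lq_one1 (hp : p.Prime) (hz : IsPrimitiveRoot z (p ^ k)) {v : Pl K} (hv : ¬ Above p v)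
    {u : Kˣ} (hu : One1 v u) : lg (p ^ k) z v u = 0 :=
  gq_one1 (pow_ne_zero _ hp.ne_zero) (sq_val hp hz v) (sq_zeta hp hz hv) hu

theorem lq_neg (hp : p.Prime) (hp2 : p ≠ 2) (hz : IsPrimitiveRoot z (p ^ k)) {v : Pl K}
    (hv : ¬ Above p v) : lg (p ^ k) z v (-1) = 0 := by
  have h0 : ord v (-1 : Kˣ) = 0 := by
    rw [ord_eq_zero_iff, Units.val_neg, Units.val_one, Valuation.map_neg, map_one]
  have hodd : Odd (p ^ k) := (hp.odd_of_ne_two hp2).pow
  have h1 := lq_zpow hp hz hv h0 ((p ^ k : ℕ) : ℤ)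
  rw [zpow_natCast, hodd.neg_one_pow, Int.cast_natCast, ZMod.natCast_self, zero_mul] at h1
  exact h1

theorem sq_ord (v : Pl K) (c x : Kˣ) : ord v (c ^ ord v x * (x ^ ord v c)⁻¹) = 0 := by
  rw [ord_mul, ord_inv, ord_zpow, ord_zpow]
  ring

theorem bk_above {v : Pl K} (hv : Above p v) (x a : Kˣ) : Bk p k z v x a = 0 := by
  unfold Bk
  rw [if_pos hv]

theorem bk_of {v : Pl K} (hv : ¬ Above p v) (x a : Kˣ) : Bk p k z v x a = B (p ^ k) z v x a := by
  unfold Bk
  rw [if_neg hv]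

theorem bk_mul_left (hp : p.Prime) (hz : IsPrimitiveRoot z (p ^ k)) (v : Pl K) (x x' a : Kˣ) :
    Bk p k z v (x * x') a = Bk p k z v x a + Bk p k z v x' a := by
  by_cases hv : Above p v
  · rw [bk_above hv, bk_above hv, bk_above hv, add_zero]
  rw [bk_of hv, bk_of hv, bk_of hv]
  unfold B
  rw [← lq_mul hp hz hv (sq_ord v x a) (sq_ord v x' a)]
  congr 1
  rw [ord_mul, mul_zpow, zpow_add, mul_inv, mul_mul_mul_comm]

theorem bk_mul_right (hp : p.Prime) (hz : IsPrimitiveRoot z (p ^ k)) (v : Pl K) (x a a' : Kˣ) :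
    Bk p k z v x (a * a') = Bk p k z v x a + Bk p k z v x a' := by
  by_cases hv : Above p v
  · rw [bk_above hv, bk_above hv, bk_above hv, add_zero]
  rw [bk_of hv, bk_of hv, bk_of hv]
  unfold B
  rw [← lq_mul hp hz hv (sq_ord v x a) (sq_ord v x a')]
  congr 1
  rw [ord_mul, mul_zpow, zpow_add, mul_inv, mul_mul_mul_comm]

theorem bk_zpow_left (hp : p.Prime) (hz : IsPrimitiveRoot z (p ^ k)) (v : Pl K) (x a : Kˣ)
    (n : ℤ) : Bk p k z v (x ^ n) a = n * Bk p k z v x a := by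
  by_cases hv : Above p v
  · rw [bk_above hv, bk_above hv, mul_zero]
  rw [bk_of hv, bk_of hv]
  unfold B
  rw [← lq_zpow hp hz hv (sq_ord v x a) n]
  congr 1
  rw [ord_zpow, mul_zpow, inv_zpow, ← zpow_mul, ← zpow_mul, ← zpow_mul, mul_comm n (ord v a),
    mul_comm n (ord v x)]

theorem bk_zpow_right (hp : p.Prime) (hz : IsPrimitiveRoot z (p ^ k)) (v : Pl K) (x a : Kˣ)
    (n : ℤ) : Bk p k z v x (a ^ n) = n * Bk p k z v x a := by
  by_cases hv : Above p v
  · rw [bk_above hv, bk_above hv, mul_zero]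
  rw [bk_of hv, bk_of hv]
  unfold B
  rw [← lq_zpow hp hz hv (sq_ord v x a) n]
  congr 1
  rw [ord_zpow, mul_zpow, inv_zpow, ← zpow_mul, ← zpow_mul, ← zpow_mul, mul_comm n (ord v a),
    mul_comm n (ord v x)]

theorem bk_symm (hp : p.Prime) (hz : IsPrimitiveRoot z (p ^ k)) (v : Pl K) (x a : Kˣ) :
    Bk p k z v x a = -Bk p k z v a x := by
  by_cases hv : Above p v
  · rw [bk_above hv, bk_above hv, neg_zero]
  rw [bk_of hv, bk_of hv]
  unfold B
  have h := lq_zpow hp hz hv (sq_ord v a x) (-1)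
  rw [zpow_neg_one, mul_inv, inv_inv, mul_comm] at h
  rw [h]
  push_cast
  ring

theorem bk_self (hp : p.Prime) (hz : IsPrimitiveRoot z (p ^ k)) (v : Pl K) (x : Kˣ) :
    Bk p k z v x x = 0 := by
  by_cases hv : Above p v
  · rw [bk_above hv]
  rw [bk_of hv]
  unfold B
  rw [mul_inv_cancel]
  exact lq_one hp hz hv

theorem bk_one1 (hp : p.Prime) (hz : IsPrimitiveRoot z (p ^ k)) {v : Pl K} (x : Kˣ) {a : Kˣ}
    (ha : One1 v a) : Bk p k z v x a = 0 := by
  by_cases hv : Above p v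
  · rw [bk_above hv]
  rw [bk_of hv]
  unfold B
  rw [ord_of_one1 ha, zpow_zero, one_mul]
  exact lq_one1 hp hz hv (one1_inv (one1_zpow ha _))

theorem bk_unit (hp : p.Prime) (hz : IsPrimitiveRoot z (p ^ k)) {v : Pl K} (hv : ¬ Above p v)
    {u : Kˣ} (hu : ord v u = 0) (a : Kˣ) : Bk p k z v u a = ord v a * lg (p ^ k) z v u := by
  rw [bk_of hv]
  unfold B
  rw [hu, zpow_zero, inv_one, mul_one, lq_zpow hp hz hv hu]

theorem bk_fin (hp : p.Prime) (hz : IsPrimitiveRoot z (p ^ k)) (x a : Kˣ) :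
    {v : Pl K | Bk p k z v x a ≠ 0}.Finite := by
  refine ((finite_ord x).union (finite_ord a)).subset ?_
  intro w hne
  by_contra hcon
  rw [Set.mem_union, not_or] at hcon
  have h1 : ord w x = 0 := by
    by_contra h
    exact hcon.1 h
  have h2 : ord w a = 0 := by
    by_contra h
    exact hcon.2 h
  apply hne
  by_cases hw : Above p w
  · exact bk_above hw x a
  rw [bk_of hw]
  unfold B
  rw [h1, h2, zpow_zero, zpow_zero, inv_one, mul_one]
  exact lq_one hp hz hw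

theorem bk_cast (hp : p.Prime) {z : K} (hz : IsPrimitiveRoot z (p ^ (k + 1))) (v : Pl K)
    (x a : Kˣ) : ZMod.castHom (pow_dvd_pow p (Nat.le_succ k)) (ZMod (p ^ k)) (Bk p (k + 1) z v x a) =
      Bk p k (z ^ p) v x a := by
  by_cases hv : Above p v
  · rw [bk_above hv, bk_above hv, map_zero]
  rw [bk_of hv, bk_of hv]
  unfold B
  exact gq_cast (pow_ne_zero _ hp.ne_zero) hp.ne_zero (pow_succ _ _) (sq_val hp hz v)
    (sq_zeta hp hz hv) (sq_ord v x a) _

theorem bk_b1 (hp : p.Prime) {z : K} (hz : IsPrimitiveRoot z (p ^ (k + 1))) (v : Pl K)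
    (x a : Kˣ) : ZMod.castHom (dvd_pow_self p (Nat.succ_ne_zero k)) (ZMod p) (Bk p (k + 1) z v x a) =
      b1 p (z ^ p ^ k) v x a := by
  unfold b1
  by_cases hv : Above p v
  · rw [bk_above hv, if_pos hv, map_zero]
  rw [bk_of hv, if_neg hv]
  unfold B
  exact gq_cast hp.ne_zero (pow_ne_zero _ hp.ne_zero) (pow_succ' _ _) (sq_val hp hz v)
    (sq_zeta hp hz hv) (sq_ord v x a) _

theorem sk_mul_left (hp : p.Prime) (hz : IsPrimitiveRoot z (p ^ k)) (x x' a : Kˣ) :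
    Sk p k z (x * x') a = Sk p k z x a + Sk p k z x' a := by
  unfold Sk
  rw [← finsum_add_distrib (bk_fin hp hz x a) (bk_fin hp hz x' a)]
  exact finsum_congr fun v => bk_mul_left hp hz v x x' a

theorem sk_mul_right (hp : p.Prime) (hz : IsPrimitiveRoot z (p ^ k)) (x a a' : Kˣ) :
    Sk p k z x (a * a') = Sk p k z x a + Sk p k z x a' := by
  unfold Sk
  rw [← finsum_add_distrib (bk_fin hp hz x a) (bk_fin hp hz x a')]
  exact finsum_congr fun v => bk_mul_right hp hz v x a a'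

theorem sk_zpow_left (hp : p.Prime) (hz : IsPrimitiveRoot z (p ^ k)) (x a : Kˣ) (n : ℤ) :
    Sk p k z (x ^ n) a = n * Sk p k z x a := by
  unfold Sk
  rw [finsum_congr fun v => bk_zpow_left hp hz v x a n]
  exact (AddMonoidHom.map_finsum (AddMonoidHom.mulLeft (n : ZMod (p ^ k)))
    (bk_fin hp hz x a)).symm

theorem sk_cast (hp : p.Prime) {z : K} (hz : IsPrimitiveRoot z (p ^ (k + 1))) (x a : Kˣ) :
    ZMod.castHom (pow_dvd_pow p (Nat.le_succ k)) (ZMod (p ^ k)) (Sk p (k + 1) z x a) =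
      Sk p k (z ^ p) x a := by
  unfold Sk
  have h1 := AddMonoidHom.map_finsum (ZMod.castHom (pow_dvd_pow p (Nat.le_succ k))
    (ZMod (p ^ k))).toAddMonoidHom (bk_fin hp hz x a)
  refine h1.trans (finsum_congr fun v => bk_cast hp hz v x a)

end H57.RQ
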