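import Pool.Agent.H57.RQ.Sym

/-!
# [H57 RQ EM] multiplication by `p ^ k`, 60-100 lines. File Pool/Agent/H57/RQ/Em.lean

* `em_add`, `em_inj`, `em_cast`: `em (cast u) = p ^ k * u`. `em_ker`: the kernel of the reduction `ZMod (p ^ (k+1)) → ZMod (p ^ k)` is the image of `em` (`u.val = p ^ k * s`, `s < p`).
* `mul_ker`: `p * u = 0` if the reduction of `u` modulo `p ^ k` is `0`.
-/

set_option autoImplicit false

open scoped NumberField
open IsDedekindDomain
open scoped Classical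

noncomputable section

namespace H57.RQ

open H63.MA

variable {p k : ℕ}

theorem em_nat (n : ℕ) : em p k (n : ZMod p) = ((p ^ k * n : ℕ) : ZMod (p ^ (k + 1))) := by
  unfold em
  rw [ZMod.natCast_eq_natCast_iff, ZMod.val_natCast, pow_succ]
  exact Nat.ModEq.mul_left' (p ^ k) (Nat.mod_modEq n p)

theorem em_add (hp : p.Prime) (s t : ZMod p) : em p k (s + t) = em p k s + em p k t := by
  have : NeZero p := ⟨hp.ne_zero⟩
  have h1 : s + t = ((s.val + t.val : ℕ) : ZMod p) := by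
    rw [Nat.cast_add, ZMod.natCast_zmod_val, ZMod.natCast_zmod_val]
  rw [h1, em_nat]
  unfold em
  push_cast
  ring

theorem em_zero (hp : p.Prime) : em p k 0 = 0 := by
  have h := em_nat (p := p) (k := k) 0
  rw [Nat.cast_zero, mul_zero, Nat.cast_zero] at h
  exact h

theorem em_inj (hp : p.Prime) {s : ZMod p} (h : em p k s = 0) : s = 0 := by
  have : NeZero p := ⟨hp.ne_zero⟩
  unfold em at h
  rw [ZMod.natCast_eq_zero_iff, pow_succ] at h
  have h1 : p ∣ s.val := Nat.dvd_of_mul_dvd_mul_left (pow_pos hp.pos k) h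
  have h2 : s.val = 0 := Nat.eq_zero_of_dvd_of_lt h1 (ZMod.val_lt s)
  exact (ZMod.val_eq_zero s).1 h2

theorem em_cast (hp : p.Prime) (u : ZMod (p ^ (k + 1))) :
    em p k (ZMod.castHom (dvd_pow_self p (Nat.succ_ne_zero k)) (ZMod p) u) = (p : ZMod (p ^ (k + 1))) ^ k * u := by
  have : NeZero (p ^ (k + 1)) := ⟨pow_ne_zero _ hp.ne_zero⟩
  rw [ZMod.castHom_apply, ← ZMod.natCast_val, em_nat]
  push_cast
  rw [ZMod.natCast_zmod_val]

theorem em_ker (hp : p.Prime) (u : ZMod (p ^ (k + 1)))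
    (h : ZMod.castHom (pow_dvd_pow p (Nat.le_succ k)) (ZMod (p ^ k)) u = 0) : ∃ s, u = em p k s := by
  have : NeZero (p ^ (k + 1)) := ⟨pow_ne_zero _ hp.ne_zero⟩
  rw [ZMod.castHom_apply, ← ZMod.natCast_val, ZMod.natCast_eq_zero_iff] at h
  obtain ⟨s, hs⟩ := h
  refine ⟨(s : ZMod p), ?_⟩
  rw [em_nat, ← hs, ZMod.natCast_zmod_val]

theorem mul_ker (hp : p.Prime) (u : ZMod (p ^ (k + 1)))
    (h : ZMod.castHom (pow_dvd_pow p (Nat.le_succ k)) (ZMod (p ^ k)) u = 0) :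
    (p : ZMod (p ^ (k + 1))) * u = 0 := by
  obtain ⟨s, hs⟩ := em_ker hp u h
  rw [hs]
  unfold em
  have h1 : (p : ZMod (p ^ (k + 1))) * ((p ^ k * s.val : ℕ) : ZMod (p ^ (k + 1))) =
      ((p ^ (k + 1) : ℕ) : ZMod (p ^ (k + 1))) * (s.val : ZMod (p ^ (k + 1))) := by
    push_cast
    ring
  rw [h1, ZMod.natCast_self, zero_mul]

end H57.RQ
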