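import Pool.Agent.H57.RQ.Ncl
import Pool.Agent.H57.RQ.Em

/-!
# [H57 RQ NCS] norms and the symbols of order `p ^ k`, sums, 100-160 lines. File Pool/Agent/H57/RQ/Ncs.lean

* `nc_sum`: the sum over `v` of `ncl` (`above_over` for `v ∣ p`; `exists_below`, `below_unique`, `over_finite`; `bk_fin`; a `finsum` over the fibres of the map `w ↦ v`).
* `nc_b1`: the same for the symbols of order `p` with weights `t v` (`ncl` with `k = 1` and `bk_b1` for `k = 0`: the reduction modulo `p` of `Bk p 1 ζ`; or repeat the argument).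
* `dnv w`: the prime of `K` under `w`.
-/

set_option autoImplicit false

open scoped NumberField
open IsDedekindDomain
open scoped Classical

noncomputable section

namespace H57.RQ

open H63.MA

/-- the prime below -/
def dnv (K : Type) [Field K] [NumberField K] {L : Type} [Field L] [NumberField L] [Algebra K L]
    (w : Pl L) : Pl K := (exists_below (K := K) w).choose

theorem dnv_over (K : Type) [Field K] [NumberField K] {L : Type} [Field L] [NumberField L]
    [Algebra K L] (w : Pl L) : Over w (dnv K w) := (exists_below (K := K) w).choose_spec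

private theorem fib {α β M : Type} [AddCommMonoid M] (d : α → β) (F : α → M)
    (hF : (Function.support F).Finite) : ∑ᶠ b, ∑ᶠ a ∈ {a | d a = b}, F a = ∑ᶠ a, F a := by
  have h1 : ∀ b, ∑ᶠ a ∈ {a | d a = b}, F a = ∑ a ∈ hF.toFinset with d a = b, F a := by
    intro b
    refine finsum_mem_eq_sum_of_inter_support_eq F ?_
    ext a
    simp only [Set.mem_inter_iff, Set.mem_ofPred_eq, Function.mem_support, Finset.coe_filter,
      Set.Finite.mem_toFinset]
    tauto
  rw [finsum_congr h1]
  have h2 : (Function.support fun b => ∑ a ∈ hF.toFinset with d a = b, F a) ⊆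
      ((hF.toFinset.image d : Finset β) : Set β) := by
    intro b hb
    rw [Function.mem_support] at hb
    obtain ⟨a, ha, -⟩ := Finset.exists_ne_zero_of_sum_ne_zero hb
    rw [Finset.mem_filter] at ha
    exact Finset.mem_coe.2 (Finset.mem_image.2 ⟨a, ha.1, ha.2⟩)
  rw [finsum_eq_sum_of_support_subset _ h2, finsum_eq_sum F hF]
  exact Finset.sum_fiberwise_of_maps_to (fun a ha => Finset.mem_image_of_mem d ha) F

private theorem over_eq {K : Type} [Field K] [NumberField K] {L : Type} [Field L] [NumberField L]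
    [Algebra K L] (v : Pl K) : {w : Pl L | Over w v} = {w : Pl L | dnv K w = v} := by
  ext w
  constructor
  · intro h
    exact below_unique (dnv_over K w) h
  · intro h
    have h1 := dnv_over K w
    have h2 : dnv K w = v := h
    rwa [h2] at h1

private theorem bkv {K : Type} [Field K] [NumberField K] {L : Type} [Field L] [NumberField L]
    [Algebra K L] {p k : ℕ} (hp : p.Prime) (hp2 : p ≠ 2) {ζ : K} (hζ : IsPrimitiveRoot ζ p) {c : Kˣ}
    (H : Kum p K ζ c L) {z : K} (hz : IsPrimitiveRoot z (p ^ k)) (v : Pl K) (x : Kˣ) (b : Lˣ) :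
    Bk p k z v x (Nm K L b) = ∑ᶠ w ∈ {w : Pl L | Over w v}, Bk p k (algebraMap K L z) w (inc K L x) b := by
  by_cases hv : Above p v
  · have h1 : ∀ w : Pl L, w ∈ {w : Pl L | Over w v} → Bk p k (algebraMap K L z) w (inc K L x) b = 0 := by
      intro w hw
      unfold Bk
      rw [if_pos ((above_over hw p).2 hv)]
    rw [finsum_mem_congr rfl h1, finsum_mem_zero]
    unfold Bk
    rw [if_pos hv]
  · exact ncl hp hp2 hζ H hz hv x b

private theorem b1_bk {K : Type} [Field K] [NumberField K] {p : ℕ} (hp : p.Prime) {ζ : K}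
    (hζ : IsPrimitiveRoot ζ p) (v : Pl K) (x a : Kˣ) :
    b1 p ζ v x a = ZMod.castHom (dvd_pow_self p (Nat.succ_ne_zero 0)) (ZMod p) (Bk p (0 + 1) ζ v x a) := by
  rw [bk_b1 hp (k := 0) (by rw [zero_add, pow_one]; exact hζ), pow_zero, pow_one]

private theorem b1v {K : Type} [Field K] [NumberField K] {L : Type} [Field L] [NumberField L]
    [Algebra K L] {p : ℕ} (hp : p.Prime) (hp2 : p ≠ 2) {ζ : K} (hζ : IsPrimitiveRoot ζ p) {c : Kˣ}
    (H : Kum p K ζ c L) (v : Pl K) (x : Kˣ) (b : Lˣ) :
    b1 p ζ v x (Nm K L b) = ∑ᶠ w ∈ {w : Pl L | Over w v}, b1 p (algebraMap K L ζ) w (inc K L x) b := by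
  have hζ' : IsPrimitiveRoot (algebraMap K L ζ) p := hζ.map_of_injective (algebraMap K L).injective
  have h0 : IsPrimitiveRoot ζ (p ^ (0 + 1)) := by rw [zero_add, pow_one]; exact hζ
  rw [b1_bk hp hζ, bkv hp hp2 hζ H h0 v x b]
  have h1 := AddMonoidHom.map_finsum_mem
    (f := fun w : Pl L => Bk p (0 + 1) (algebraMap K L ζ) w (inc K L x) b)
    (ZMod.castHom (dvd_pow_self p (Nat.succ_ne_zero 0)) (ZMod p)).toAddMonoidHom
    (over_finite (L := L) v)
  refine h1.trans (finsum_mem_congr rfl fun w _ => ?_)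
  exact (b1_bk hp hζ' w _ _).symm

theorem nc_sum {K : Type} [Field K] [NumberField K] {L : Type} [Field L] [NumberField L]
    [Algebra K L] {p k : ℕ} (hp : p.Prime) (hp2 : p ≠ 2) {ζ : K} (hζ : IsPrimitiveRoot ζ p) {c : Kˣ}
    (H : Kum p K ζ c L) {z : K} (hz : IsPrimitiveRoot z (p ^ k)) (x : Kˣ) (b : Lˣ) :
    Sk p k z x (Nm K L b) = Sk p k (algebraMap K L z) (inc K L x) b := by
  have hz' : IsPrimitiveRoot (algebraMap K L z) (p ^ k) := hz.map_of_injective (algebraMap K L).injective
  unfold Sk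
  rw [finsum_congr fun v => bkv hp hp2 hζ H hz v x b, ← fib (dnv K) _ (bk_fin hp hz' (inc K L x) b)]
  refine finsum_congr fun v => ?_
  rw [over_eq]

theorem nc_b1 {K : Type} [Field K] [NumberField K] {L : Type} [Field L] [NumberField L]
    [Algebra K L] {p : ℕ} (hp : p.Prime) (hp2 : p ≠ 2) {ζ : K} (hζ : IsPrimitiveRoot ζ p) {c : Kˣ}
    (H : Kum p K ζ c L) (t : Pl K → ZMod p) (x : Kˣ) (b : Lˣ) :
    ∑ᶠ v, t v * b1 p ζ v x (Nm K L b) =
      ∑ᶠ w, t (dnv K w) * b1 p (algebraMap K L ζ) w (inc K L x) b := by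
  have hζ' : IsPrimitiveRoot (algebraMap K L ζ) p := hζ.map_of_injective (algebraMap K L).injective
  have h0 : IsPrimitiveRoot (algebraMap K L ζ) (p ^ (0 + 1)) := by rw [zero_add, pow_one]; exact hζ'
  have hfin : (Function.support fun w : Pl L =>
      t (dnv K w) * b1 p (algebraMap K L ζ) w (inc K L x) b).Finite := by
    refine (bk_fin hp h0 (inc K L x) b).subset fun w hw => ?_
    rw [Function.mem_support] at hw
    rw [Set.mem_ofPred_eq]
    intro h1
    apply hw
    rw [b1_bk hp hζ', h1, map_zero, mul_zero]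
  rw [← fib (dnv K) _ hfin]
  refine finsum_congr fun v => ?_
  rw [b1v hp hp2 hζ H, ← over_eq]
  refine (mul_finsum_mem' (fun w : Pl L => b1 p (algebraMap K L ζ) w (inc K L x) b) (t v)
    (over_finite (L := L) v)).trans (finsum_mem_congr rfl fun w hw => ?_)
  rw [over_eq] at hw
  have h2 : dnv K w = v := hw
  rw [h2]

end H57.RQ
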