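import Pool.Agent.H57.RQ.Def
import Pool.Agent.H63.MA.KumC

/-!
# [H57 RQ LOC] local `p ^ k`-th powers above `p`, 150-220 lines. File Pool/Agent/H57/RQ/Loc.lean

* `loc_step`: for `v ∣ p`, `j ≥ 1`, `v (x - 1) < v (p ^ (j+1))`, all `n`: there is `y` with `v (y - 1) < v (p ^ j)`, `v (x y ^ (-p) - 1) < v (p ^ n)`. Newton: `y₁ = 1 + (x - 1) / p`,
  `x y₁ ^ (-p) - 1` is smaller by a factor `v (p)` (`y₁ ^ p = x + ∑_(i≥2) C(p,i) ((x-1)/p)^i`, `C(p, i)` divisible by `p` for `i < p`, and for `i = p ≥ 3` `((x-1)/p)^(p-1)` is small); induction on `n`.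
* `dp_pk`: `Dp p (k+1) x → Pk p k x` (`k` steps with `loc_step`; at each step the precision is as large as one wants).
* `pk_mul`, `pk_inv`, `pk_one`, `pk_le` (`Pk p (k+1) → Pk p k`), `pk_prim` (`Pk p (k+1) x → Prim p x`), `pk_inc` (`Pk p k x → Pk p k (inc K L x)`; `kumc_lt`, `above_over`).
* `pk_root`: `g ∈ L^*`, `g ^ p = inc x`, `Pk p (k+1) x`, `K` contains `z` of order `p ^ (k+1)`: `Pk p k g`. Proof: at `w` over `v ∣ p`: `x = y ^ (p^(k+1)) (1 + s)`, `s` small; `g' = g y ^ (-p^k)`,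
  `g' ^ p - 1 = s = ∏_(i<p) (g' - ζ ^ i)`, `ζ = z ^ (p^k)`, so `w (g' - ζ ^ i) ^ p ≤ w (s)` for some `i`, and `ζ ^ i = (z ^ i) ^ (p ^ k)`: `y' = y z ^ i`. (For `K = L`: `Algebra.id`.)
* `wap`: weak approximation: `x` with `Dp p n x` and `One1 v (x (y v)⁻¹)` for `v ∈ T` (`weak_approx`).
-/

set_option autoImplicit false

open scoped NumberField
open IsDedekindDomain
open scoped Classical

noncomputable section

namespace H57.RQ

open H63.MA

variable {K : Type} [Field K] [NumberField K] {p k : ℕ}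

/-! ### neighbourhoods of `1` -/

private theorem loc_unit {v : Pl K} {x : K} (h : v.valuation K (x - 1) < 1) :
    v.valuation K x = 1 := by
  have h1 := Valuation.map_one_add_of_lt (v := v.valuation K) (x := x - 1) h
  rwa [add_sub_cancel] at h1

private theorem loc_mul {v : Pl K} {δ : WithZero (Multiplicative ℤ)} (hδ : δ ≤ 1) {x y : Kˣ}
    (hx : v.valuation K ((x : K) - 1) < δ) (hy : v.valuation K ((y : K) - 1) < δ) :
    v.valuation K (((x * y : Kˣ) : K) - 1) < δ := by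
  have h1 : ((x * y : Kˣ) : K) - 1 = ((x : K) - 1) * y + ((y : K) - 1) := by
    rw [Units.val_mul]
    ring
  rw [h1]
  refine lt_of_le_of_lt (Valuation.map_add _ _ _) (max_lt ?_ hy)
  rw [map_mul, loc_unit (lt_of_lt_of_le hy hδ), mul_one]
  exact hx

private theorem loc_inv {v : Pl K} {δ : WithZero (Multiplicative ℤ)} (hδ : δ ≤ 1) {x : Kˣ}
    (hx : v.valuation K ((x : K) - 1) < δ) : v.valuation K (((x⁻¹ : Kˣ) : K) - 1) < δ := by
  have hx1 := loc_unit (lt_of_lt_of_le hx hδ)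
  have h1 : ((x⁻¹ : Kˣ) : K) - 1 = -(((x : K) - 1) * (x : K)⁻¹) := by
    rw [Units.val_inv_eq_inv_val]
    have := x.ne_zero
    field_simp
    ring
  rw [h1, Valuation.map_neg, map_mul, map_inv₀, hx1, inv_one, mul_one]
  exact hx

private theorem loc_pow {v : Pl K} {δ : WithZero (Multiplicative ℤ)} (hδ : δ ≤ 1) {x : Kˣ}
    (hx : v.valuation K ((x : K) - 1) < δ) (n : ℕ) :
    v.valuation K (((x ^ n : Kˣ) : K) - 1) < δ := by
  have h0 : (0 : WithZero (Multiplicative ℤ)) < δ := lt_of_le_of_lt zero_le' hx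
  induction n with
  | zero =>
    rw [pow_zero, Units.val_one, sub_self, map_zero]
    exact h0
  | succ n ih =>
    rw [pow_succ]
    exact loc_mul hδ ih hx

private theorem loc_nat (v : Pl K) (n : ℕ) : v.valuation K (n : K) ≤ 1 := by
  have h1 : algebraMap (𝓞 K) K (n : 𝓞 K) = (n : K) := map_natCast (algebraMap (𝓞 K) K) n
  rw [← h1]
  exact v.valuation_le_one _

private theorem loc_pn (v : Pl K) (n : ℕ) : v.valuation K ((p : K) ^ n) ≤ 1 := by
  rw [map_pow]
  exact pow_le_one₀ zero_le' (loc_nat v p)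

private theorem loc_p0 (hp : p.Prime) (v : Pl K) : 0 < v.valuation K (p : K) := by
  rw [zero_lt_iff, Valuation.ne_zero_iff]
  exact_mod_cast hp.ne_zero

/-! ### one step -/

private theorem loc_binom (hp : p.Prime) (hp2 : p ≠ 2) {v : Pl K} {t : K}
    (ht : v.valuation K t ≤ v.valuation K (p : K)) :
    v.valuation K ((1 + t) ^ p - 1 - p * t) ≤ v.valuation K (p : K) * v.valuation K t ^ 2 := by
  have hp3 : 3 ≤ p := by
    have := hp.two_le
    omega
  have ht1 : v.valuation K t ≤ 1 := ht.trans (loc_nat v p)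
  obtain ⟨q, rfl⟩ : ∃ q, p = q + 1 := ⟨p - 1, by omega⟩
  have e1 : (1 + t) ^ (q + 1) - 1 - ((q + 1 : ℕ) : K) * t =
      ∑ m ∈ Finset.range q, t ^ (m + 2) * (((q + 1).choose (m + 2) : ℕ) : K) := by
    rw [add_comm (1 : K) t, add_pow, Finset.sum_range_succ', Finset.sum_range_succ']
    simp only [one_pow, mul_one, pow_zero, one_mul, zero_add, pow_one, Nat.choose_zero_right,
      Nat.choose_one_right, Nat.cast_one]
    ring
  rw [e1]
  refine Valuation.map_sum_le _ fun m hm => ?_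
  rw [Finset.mem_range] at hm
  rw [map_mul, map_pow]
  rcases Nat.lt_or_ge (m + 2) (q + 1) with h | h
  · obtain ⟨c, hc⟩ := hp.dvd_choose_self (k := m + 2) (by omega) h
    rw [hc, Nat.cast_mul, map_mul]
    calc v.valuation K t ^ (m + 2) * (v.valuation K ((q + 1 : ℕ) : K) * v.valuation K (c : K))
        ≤ v.valuation K t ^ 2 * (v.valuation K ((q + 1 : ℕ) : K) * 1) :=
          mul_le_mul' (pow_le_pow_right_of_le_one' ht1 (by omega))
            (mul_le_mul' le_rfl (loc_nat v c))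
      _ = _ := by rw [mul_one, mul_comm]
  · have hm2 : m + 2 = q + 1 := by omega
    rw [hm2, Nat.choose_self, Nat.cast_one, map_one, mul_one]
    calc v.valuation K t ^ (q + 1) ≤ v.valuation K t ^ 3 := pow_le_pow_right_of_le_one' ht1 hp3
      _ = v.valuation K t * v.valuation K t ^ 2 := pow_succ' _ _
      _ ≤ v.valuation K ((q + 1 : ℕ) : K) * v.valuation K t ^ 2 := by gcongr

private theorem loc_step (hp : p.Prime) (hp2 : p ≠ 2) {v : Pl K} (hv : Above p v) {j : ℕ}
    (hj : 1 ≤ j) {x : Kˣ} (hx : v.valuation K ((x : K) - 1) < v.valuation K (p : K) ^ (j + 1))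
    (n : ℕ) : ∃ y : Kˣ, v.valuation K ((y : K) - 1) < v.valuation K (p : K) ^ j ∧
      v.valuation K (((x * (y ^ p)⁻¹ : Kˣ) : K) - 1) < v.valuation K (p : K) ^ (j + 1 + n) := by
  have ha1 := (above_iff p v).1 hv
  have ha0 := loc_p0 hp v
  have hp0 : (p : K) ≠ 0 := by exact_mod_cast hp.ne_zero
  induction n with
  | zero =>
    refine ⟨1, ?_, ?_⟩
    · rw [Units.val_one, sub_self, map_zero]
      exact pow_pos ha0 j
    · rw [one_pow, inv_one, mul_one, add_zero]
      exact hx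
  | succ n ih =>
    obtain ⟨y, hy1, hy2⟩ := ih
    set x' : Kˣ := x * (y ^ p)⁻¹ with hx'
    set t : K := ((x' : K) - 1) / p with ht
    have htv : v.valuation K t < v.valuation K (p : K) ^ (j + n) := by
      rw [ht, map_div₀, div_lt_iff₀ ha0, ← pow_succ]
      have : j + n + 1 = j + 1 + n := by omega
      rw [this]
      exact hy2
    have htj : v.valuation K t < v.valuation K (p : K) ^ j :=
      lt_of_lt_of_le htv (pow_le_pow_right_of_le_one' ha1.le (by omega))
    have hta : v.valuation K t ≤ v.valuation K (p : K) := by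
      refine htj.le.trans ?_
      calc v.valuation K (p : K) ^ j ≤ v.valuation K (p : K) ^ 1 :=
            pow_le_pow_right_of_le_one' ha1.le hj
        _ = _ := pow_one _
    have hu : v.valuation K (1 + t) = 1 :=
      Valuation.map_one_add_of_lt (v := v.valuation K) (lt_of_le_of_lt hta ha1)
    have hu0 : (1 + t) ≠ 0 := by
      intro h
      rw [h, map_zero] at hu
      exact zero_ne_one hu
    set y1 : Kˣ := Units.mk0 (1 + t) hu0 with hy1'
    have hy1v : ((y1 : Kˣ) : K) = 1 + t := rfl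
    refine ⟨y * y1, ?_, ?_⟩
    · refine loc_mul (pow_le_one₀ zero_le' ha1.le) hy1 ?_
      rw [hy1v, add_sub_cancel_left]
      exact htj
    · have e1 : x * ((y * y1) ^ p)⁻¹ = x' * (y1 ^ p)⁻¹ := by
        rw [hx', mul_pow, mul_inv, mul_assoc]
      have e2 : ((x' * (y1 ^ p)⁻¹ : Kˣ) : K) - 1 =
          -(((1 + t) ^ p - 1 - p * t) * ((1 + t) ^ p)⁻¹) := by
        rw [Units.val_mul, Units.val_inv_eq_inv_val, Units.val_pow_eq_pow_val, hy1v]
        have e3 : (p : K) * t = (x' : K) - 1 := by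
          rw [ht]
          field_simp
        rw [e3]
        have := pow_ne_zero p hu0
        field_simp
        ring
      rw [e1, e2, Valuation.map_neg, map_mul, map_inv₀, map_pow, hu, one_pow, inv_one, mul_one]
      refine lt_of_le_of_lt (loc_binom hp hp2 hta) ?_
      have h5 : v.valuation K t ^ 2 < v.valuation K (p : K) ^ (2 * (j + n)) := by
        rw [mul_comm, pow_mul]
        exact pow_lt_pow_left₀ htv zero_le' two_ne_zero
      calc v.valuation K (p : K) * v.valuation K t ^ 2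
          < v.valuation K (p : K) * v.valuation K (p : K) ^ (2 * (j + n)) := by
            exact mul_lt_mul_of_pos_left h5 ha0
        _ = v.valuation K (p : K) ^ (2 * (j + n) + 1) := by rw [pow_succ, mul_comm]
        _ ≤ v.valuation K (p : K) ^ (j + 1 + (n + 1)) :=
            pow_le_pow_right_of_le_one' ha1.le (by omega)

private theorem loc_iter (hp : p.Prime) (hp2 : p ≠ 2) {v : Pl K} (hv : Above p v) (k : ℕ) :
    ∀ (j : ℕ), 1 ≤ j → ∀ (x : Kˣ),
      v.valuation K ((x : K) - 1) < v.valuation K (p : K) ^ (j + k) → ∀ n : ℕ,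
      ∃ y : Kˣ, v.valuation K ((y : K) - 1) < v.valuation K (p : K) ^ j ∧
      v.valuation K (((x * (y ^ p ^ k)⁻¹ : Kˣ) : K) - 1) < v.valuation K (p : K) ^ n := by
  have ha1 := (above_iff p v).1 hv
  have ha0 := loc_p0 hp v
  induction k with
  | zero =>
    intro j hj x hx n
    refine ⟨x, by simpa using hx, ?_⟩
    rw [pow_zero, pow_one, mul_inv_cancel, Units.val_one, sub_self, map_zero]
    exact pow_pos ha0 n
  | succ k ih =>
    intro j hj x hx n
    obtain ⟨y1, h1, h2⟩ := loc_step hp hp2 hv (j := j + k) (by omega) (x := x)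
      (by rw [add_assoc]; exact hx) n
    obtain ⟨y, h3, h4⟩ := ih j hj y1 h1 n
    refine ⟨y, h3, ?_⟩
    have e1 : x * (y ^ p ^ (k + 1))⁻¹ = (x * (y1 ^ p)⁻¹) * (y1 * (y ^ p ^ k)⁻¹) ^ p := by
      rw [mul_pow, inv_pow, ← pow_mul, ← pow_succ, mul_assoc, inv_mul_cancel_left]
    rw [e1]
    have hn1 : v.valuation K (p : K) ^ n ≤ 1 := pow_le_one₀ zero_le' ha1.le
    refine loc_mul hn1 (lt_of_lt_of_le h2 (pow_le_pow_right_of_le_one' ha1.le (by omega))) ?_
    exact loc_pow hn1 h4 p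

theorem dp_pk (hp : p.Prime) (hp2 : p ≠ 2) {x : Kˣ} (h : Dp p (k + 1) x) : Pk p k x := by
  intro v hv n
  have h1 := h v hv
  rw [map_pow, add_comm] at h1
  obtain ⟨y, -, hy⟩ := loc_iter hp hp2 hv k 1 le_rfl x h1 n
  exact ⟨y, by rw [map_pow]; exact hy⟩

theorem pk_mul (hp : p.Prime) {x y : Kˣ} (hx : Pk p k x) (hy : Pk p k y) : Pk p k (x * y) := by
  intro v hv n
  obtain ⟨a, ha⟩ := hx v hv n
  obtain ⟨b, hb⟩ := hy v hv n
  refine ⟨a * b, ?_⟩
  have e1 : x * y * ((a * b) ^ p ^ k)⁻¹ = (x * (a ^ p ^ k)⁻¹) * (y * (b ^ p ^ k)⁻¹) := by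
    rw [mul_pow, mul_inv, mul_mul_mul_comm]
  rw [e1]
  exact loc_mul (loc_pn v n) ha hb

theorem pk_inv (hp : p.Prime) {x : Kˣ} (hx : Pk p k x) : Pk p k x⁻¹ := by
  intro v hv n
  obtain ⟨a, ha⟩ := hx v hv n
  refine ⟨a⁻¹, ?_⟩
  have e1 : x⁻¹ * (a⁻¹ ^ p ^ k)⁻¹ = (x * (a ^ p ^ k)⁻¹)⁻¹ := by
    rw [mul_inv, inv_pow]
  rw [e1]
  exact loc_inv (loc_pn v n) ha

theorem pk_le (hp : p.Prime) {x : Kˣ} (hx : Pk p (k + 1) x) : Pk p k x := by
  intro v hv n
  obtain ⟨a, ha⟩ := hx v hv n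
  refine ⟨a ^ p, ?_⟩
  have e1 : (a ^ p) ^ p ^ k = a ^ p ^ (k + 1) := by
    rw [← pow_mul, pow_succ, mul_comm]
  rw [e1]
  exact ha

theorem pk_prim (hp : p.Prime) {x : Kˣ} (hx : Pk p (k + 1) x) : Prim p x := by
  intro v hv
  obtain ⟨a, ha⟩ := hx v hv 2
  refine ⟨a ^ p ^ k, ?_⟩
  have e1 : (a ^ p ^ k) ^ p = a ^ p ^ (k + 1) := by
    rw [← pow_mul, pow_succ]
  rw [e1]
  exact ha

theorem pk_inc (hp : p.Prime) {L : Type} [Field L] [NumberField L] [Algebra K L] {x : Kˣ}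
    (hx : Pk p k x) : Pk p k (inc K L x) := by
  intro w hw n
  obtain ⟨v, hv⟩ := exists_below (K := K) w
  obtain ⟨y, hy⟩ := hx v ((above_over hv p).1 hw) n
  refine ⟨inc K L y, ?_⟩
  have h1 := kumc_lt (L := L) hv _ _ hy
  have e1 : ((inc K L x * (inc K L y ^ p ^ k)⁻¹ : Lˣ) : L) - 1 =
      algebraMap K L (((x * (y ^ p ^ k)⁻¹ : Kˣ) : K) - 1) := by
    rw [← map_pow, ← map_inv, ← map_mul, map_sub, map_one]
    rfl
  rw [e1]
  rwa [map_pow, map_natCast] at h1

theorem pk_root (hp : p.Prime) {L : Type} [Field L] [NumberField L] [Algebra K L] {z : K}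
    (hz : IsPrimitiveRoot z (p ^ (k + 1))) {x : Kˣ} (hx : Pk p (k + 1) x) {g : Lˣ}
    (hg : g ^ p = inc K L x) : Pk p k g := by
  intro w hw n
  obtain ⟨v, hv⟩ := exists_below (K := K) w
  obtain ⟨y, hy⟩ := hx v ((above_over hv p).1 hw) (n * p)
  have h1 := kumc_lt (L := L) hv _ _ hy
  rw [map_pow, map_natCast, map_pow] at h1
  have hzK : IsPrimitiveRoot (z ^ p ^ k) p :=
    hz.pow (pow_pos hp.pos _) (pow_succ p k)
  have hz0 : z ≠ 0 := hz.ne_zero (pow_ne_zero _ hp.ne_zero)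
  have hzL : IsPrimitiveRoot (algebraMap K L (z ^ p ^ k)) p :=
    hzK.map_of_injective (algebraMap K L).injective
  set ζ : L := algebraMap K L (z ^ p ^ k) with hζ
  set g' : Lˣ := g * (inc K L y ^ p ^ k)⁻¹ with hg'
  have e1 : (g' : L) ^ p - 1 = algebraMap K L (((x * (y ^ p ^ (k + 1))⁻¹ : Kˣ) : K) - 1) := by
    have e2 : g' ^ p = inc K L (x * (y ^ p ^ (k + 1))⁻¹) := by
      rw [hg', mul_pow, hg, inv_pow, ← pow_mul, ← pow_succ, map_mul, map_inv, map_pow]
    rw [← Units.val_pow_eq_pow_val, e2, map_sub, map_one]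
    rfl
  rw [← e1] at h1
  have hprod : (g' : L) ^ p - 1 =
      ∏ η ∈ Polynomial.nthRootsFinset p (1 : L), ((g' : L) - η) := by
    have h3 := hzL.pow_sub_pow_eq_prod_sub_mul (g' : L) 1 hp.pos
    simpa using h3
  have hex : ∃ η ∈ Polynomial.nthRootsFinset p (1 : L),
      w.valuation L ((g' : L) - η) < w.valuation L ((p : L) ^ n) := by
    by_contra hcon
    push Not at hcon
    have h4 := Finset.pow_card_le_prod (Polynomial.nthRootsFinset p (1 : L))
      (fun η => w.valuation L ((g' : L) - η)) (w.valuation L ((p : L) ^ n)) hcon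
    rw [hzL.card_nthRootsFinset, ← map_prod, ← hprod, ← map_pow, ← pow_mul, map_pow] at h4
    exact absurd h1 (not_lt.2 h4)
  obtain ⟨η, hη, hlt⟩ := hex
  rw [Polynomial.mem_nthRootsFinset hp.pos] at hη
  have : NeZero p := ⟨hp.ne_zero⟩
  obtain ⟨i, -, hi⟩ := hzL.eq_pow_of_pow_eq_one hη
  have hη0 : η ≠ 0 := by
    rintro rfl
    rw [zero_pow hp.ne_zero] at hη
    exact zero_ne_one hη
  refine ⟨inc K L (y * Units.mk0 z hz0 ^ i), ?_⟩
  have e5 : ((g * ((inc K L (y * Units.mk0 z hz0 ^ i)) ^ p ^ k)⁻¹ : Lˣ) : L) - 1 =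
      ((g' : L) - η) * η⁻¹ := by
    have e6 : g * ((inc K L (y * Units.mk0 z hz0 ^ i)) ^ p ^ k)⁻¹ =
        g' * (inc K L ((Units.mk0 z hz0 ^ i) ^ p ^ k))⁻¹ := by
      rw [hg', map_mul, mul_pow, mul_inv, ← map_pow (inc K L) (Units.mk0 z hz0 ^ i), mul_assoc]
    have e7 : ((inc K L ((Units.mk0 z hz0 ^ i) ^ p ^ k) : Lˣ) : L) = η := by
      rw [← hi, hζ, ← map_pow, ← pow_mul, ← pow_mul, mul_comm i (p ^ k)]
      rfl
    rw [e6, Units.val_mul, Units.val_inv_eq_inv_val, e7, sub_mul, mul_inv_cancel₀ hη0]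
  rw [e5, map_mul, map_inv₀, kumc_root w hp.ne_zero hη, inv_one, mul_one]
  exact hlt

theorem wap (hp : p.Prime) (n : ℕ) (T : Finset (Pl K)) (hT : ∀ v ∈ T, ¬ Above p v)
    (y : Pl K → Kˣ) : ∃ x : Kˣ, Dp p n x ∧ ∀ v ∈ T, One1 v (x * (y v)⁻¹) := by
  have hpK : (p : K) ≠ 0 := by exact_mod_cast hp.ne_zero
  obtain ⟨x, hx⟩ := weak_approx (T ∪ (finite_above (K := K) hp.ne_zero).toFinset)
    (fun v => if Above p v then 1 else y v)
    (fun v => if Above p v then v.valuation K ((p : K) ^ n) else 1) (by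
      intro v _
      by_cases h : Above p v
      · simp only [h, if_true]
        rw [Valuation.ne_zero_iff]
        exact pow_ne_zero n hpK
      · simp only [h, if_false]
        exact one_ne_zero)
  refine ⟨x, ?_, ?_⟩
  · intro v hv
    have h1 := hx v (Finset.mem_union_right _ ((finite_above (K := K) hp.ne_zero).mem_toFinset.2 hv))
    simp only [hv, if_true, inv_one, mul_one] at h1
    exact h1
  · intro v hv
    have h1 := hx v (Finset.mem_union_left _ hv)
    simp only [hT v hv, if_false] at h1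
    exact h1

end H57.RQ
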