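import Pool.Agent.H57.RQ.Ncs
import Pool.Agent.H57.RQ.Loc

/-!
# [H57 RQ KIL] the sum of order `p ^ (k+1)` vanishes if all symbols of order `p` vanish, 100-160 lines. File Pool/Agent/H57/RQ/Kil.lean

`Rk p k` is known. `ζ = z ^ (p ^ k)`.
* `sk_em`: `Sk p (k+1) z x a` is in the image of `em` (`sk_cast`, `Rk p k` for `z ^ p`, `pk_le`, `em_ker`).
* `kil`: (1) `x = y ^ p` with `y ∈ K^*`: `Sk (k+1) x a = p Sk (k+1) y a` (`sk_zpow_left`), the reduction of `Sk (k+1) y a` modulo `p ^ k` is `Sk k (z^p) y a = 0` (`Rk p k`, `pk_root` with `L = K`), `mul_ker`.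
  (2) otherwise `L` from `kum_exists`, `a = Nm b` from `hasse_norm` (`pk_prim`; `b1 = 0` is `B = 0` for `v ∤ p`), `nc_sum`, `inc x = γ ^ p`, and (1) for `L`, `γ` (`pk_root`).
-/

set_option autoImplicit false

open scoped NumberField
open IsDedekindDomain
open scoped Classical

noncomputable section

namespace H57.RQ

open H63.MA

theorem sk_em {p k : ℕ} (hp : p.Prime) (hR : Rk p k) {K : Type} [Field K] [NumberField K] {z : K}
    (hz : IsPrimitiveRoot z (p ^ (k + 1))) {x : Kˣ} (hx : Pk p (k + 1) x) (a : Kˣ) :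
    ∃ s, Sk p (k + 1) z x a = em p k s := by
  refine em_ker hp _ ?_
  rw [sk_cast hp hz]
  exact hR K (z ^ p) (hz.pow (pow_pos hp.pos _) (pow_succ' p k)) x (pk_le hp hx) a

private theorem kil_pow {p k : ℕ} (hp : p.Prime) (hR : Rk p k) {K : Type} [Field K]
    [NumberField K] {z : K} (hz : IsPrimitiveRoot z (p ^ (k + 1))) {x : Kˣ} (hx : Pk p (k + 1) x)
    {y : Kˣ} (hy : y ^ p = x) (a : Kˣ) : Sk p (k + 1) z x a = 0 := by
  have hyk : Pk p k y := by
    refine pk_root (L := K) hp hz hx ?_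
    rw [hy]
    exact Units.ext rfl
  have h1 := sk_zpow_left hp hz y a (p : ℤ)
  rw [zpow_natCast, hy] at h1
  rw [h1]
  push_cast
  refine mul_ker hp _ ?_
  rw [sk_cast hp hz]
  exact hR K (z ^ p) (hz.pow (pow_pos hp.pos _) (pow_succ' p k)) y hyk a

theorem kil {p k : ℕ} (hp : p.Prime) (hp2 : p ≠ 2) (hR : Rk p k) {K : Type} [Field K]
    [NumberField K] {z : K} (hz : IsPrimitiveRoot z (p ^ (k + 1))) {x : Kˣ} (hx : Pk p (k + 1) x)
    {a : Kˣ} (ha : ∀ v, b1 p (z ^ p ^ k) v x a = 0) : Sk p (k + 1) z x a = 0 := by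
  by_cases hxp : IsPow p x
  · obtain ⟨y, hy⟩ := hxp
    exact kil_pow hp hR hz hx hy a
  · have hζ : IsPrimitiveRoot (z ^ p ^ k) p := hz.pow (pow_pos hp.pos _) (pow_succ p k)
    obtain ⟨L, _, _, _, ⟨H⟩⟩ := kum_exists hp hζ hxp
    obtain ⟨b, rfl⟩ := hasse_norm hp (mone_odd hp hp2 K) hζ H (pk_prim hp hx) a (by
      intro v hv
      have h1 := ha v
      unfold b1 at h1
      rw [if_neg hv] at h1
      exact h1)
    rw [nc_sum hp hp2 hζ H hz]
    have hzL : IsPrimitiveRoot (algebraMap K L z) (p ^ (k + 1)) :=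
      hz.map_of_injective (algebraMap K L).injective
    exact kil_pow hp hR hzL (pk_inc hp hx) (kumc_γ hp hζ H) b

end H57.RQ
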