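import Pool.Agent.H57.RQ.Kil

/-!
# [H57 RQ LIN] weights for one `x`, 80-130 lines. File Pool/Agent/H57/RQ/Lin.lean

* `lin_ext`: `A` a commutative group, `f v : A →* Multiplicative (ZMod p)` written additively (`f v (a b) = f v a + f v b`) with `f · a` of finite support, `g` additive with `g a = 0` if all `f v a = 0`: there is
  `t` with `g a = ∑ᶠ t v f v a`. Proof: the image of `a ↦ (f v a)_v` in `Pl K →₀ ZMod p` is a subspace `W` (a subgroup closed under natural multiples), `g` induces a linear map `W → ZMod p`, extend it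
  (`LinearMap.exists_extend`), `t v` = value at `Finsupp.single v 1`.
* `lin`: for `x` with `Pk p (k+1) x` there is `t` with `Sk p (k+1) z x a = em (∑ᶠ t v b1_v(x, a))` for all `a`: `g a` = the `s` of `sk_em` (unique: `em_inj`), `kil`.
-/

set_option autoImplicit false

open scoped NumberField
open IsDedekindDomain
open scoped Classical

noncomputable section

namespace H57.RQ

open H63.MA

private theorem lin_one {p : ℕ} {A V : Type} [CommGroup A] (f : V → A → ZMod p)
    (hf : ∀ v a b, f v (a * b) = f v a + f v b) (v : V) : f v 1 = 0 := by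
  have h := hf v 1 1
  rw [mul_one] at h
  exact left_eq_add.1 h

private theorem lin_inv {p : ℕ} {A V : Type} [CommGroup A] (f : V → A → ZMod p)
    (hf : ∀ v a b, f v (a * b) = f v a + f v b) (v : V) (a : A) : f v a⁻¹ = -f v a := by
  have h := hf v a a⁻¹
  rw [mul_inv_cancel, lin_one f hf] at h
  exact (neg_eq_of_add_eq_zero_right h.symm).symm

theorem lin_ext {p : ℕ} (hp : p.Prime) {A V : Type} [CommGroup A] (f : V → A → ZMod p)
    (hf : ∀ v a b, f v (a * b) = f v a + f v b) (hfin : ∀ a, {v | f v a ≠ 0}.Finite)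
    (g : A → ZMod p) (hg : ∀ a b, g (a * b) = g a + g b) (h0 : ∀ a, (∀ v, f v a = 0) → g a = 0) :
    ∃ t : V → ZMod p, ∀ a, g a = ∑ᶠ v, t v * f v a := by
  have : Fact p.Prime := ⟨hp⟩
  have key : ∀ a b, (∀ v, f v a = f v b) → g a = g b := by
    intro a b h
    have h1 : g (a * b⁻¹) = 0 := by
      apply h0
      intro v
      rw [hf, lin_inv f hf, h v, add_neg_cancel]
    have h2 : g b⁻¹ = -g b := lin_inv (fun _ : Unit => g) (fun _ => hg) () b
    rw [hg, h2] at h1
    exact sub_eq_zero.1 (by rw [sub_eq_add_neg]; exact h1)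
  let F : Additive A →+ (V →₀ ZMod p) :=
    { toFun := fun a => Finsupp.ofSupportFinite (fun v => f v a.toMul) (hfin a.toMul)
      map_zero' := by
        ext v
        rw [Finsupp.ofSupportFinite_coe, Finsupp.zero_apply]
        exact lin_one f hf v
      map_add' := by
        intro a b
        ext v
        rw [Finsupp.add_apply]
        simp only [Finsupp.ofSupportFinite_coe]
        exact hf v _ _ }
  have hF : ∀ (a : A) (v : V), F (Additive.ofMul a) v = f v a := by
    intro a v
    rfl
  have hex : ∀ w : F.range, ∃ a : A, F (Additive.ofMul a) = w := by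
    rintro ⟨w, a, ha⟩
    exact ⟨a.toMul, ha⟩
  choose c hc using hex
  let G : F.range →+ ZMod p :=
    { toFun := fun w => g (c w)
      map_zero' := by
        apply h0
        intro v
        rw [← hF, hc]
        rfl
      map_add' := by
        intro w w'
        rw [← hg]
        apply key
        intro v
        rw [hf, ← hF, ← hF, ← hF, hc, hc, hc]
        rfl }
  have hG : ∀ (a : A), G ⟨F (Additive.ofMul a), ⟨Additive.ofMul a, rfl⟩⟩ = g a := by
    intro a
    apply key
    intro v
    rw [← hF, ← hF, hc]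
  let W : Submodule (ZMod p) (V →₀ ZMod p) := AddSubgroup.toZModSubmodule p F.range
  let G' : W →+ ZMod p := G
  obtain ⟨E, hE⟩ := LinearMap.exists_extend (AddMonoidHom.toZModLinearMap p G')
  refine ⟨fun v => E (Finsupp.single v 1), fun a => ?_⟩
  have h1 : E (F (Additive.ofMul a)) = g a := by
    rw [← hG a]
    have h2 := LinearMap.congr_fun hE ⟨F (Additive.ofMul a), ⟨Additive.ofMul a, rfl⟩⟩
    exact h2
  rw [← h1]
  have h3 : F (Additive.ofMul a) = ∑ v ∈ (F (Additive.ofMul a)).support,
      Finsupp.single v (F (Additive.ofMul a) v) := (Finsupp.sum_single (F (Additive.ofMul a))).symm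
  conv_lhs => rw [h3]
  rw [map_sum, finsum_eq_sum_of_support_subset (s := (F (Additive.ofMul a)).support)]
  · refine Finset.sum_congr rfl fun v _ => ?_
    have h4 : Finsupp.single v (F (Additive.ofMul a) v) =
        (F (Additive.ofMul a) v) • Finsupp.single v (1 : ZMod p) := by
      rw [Finsupp.smul_single, smul_eq_mul, mul_one]
    rw [h4, map_smul, smul_eq_mul, mul_comm, hF]
  · intro v hv
    rw [Finset.mem_coe, Finsupp.mem_support_iff, hF]
    intro h
    rw [Function.mem_support, h, mul_zero] at hv
    exact hv rfl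

private theorem lin_mul {K : Type} [Field K] [NumberField K] {p : ℕ} {ζ : K} (hp : p.Prime)
    (hζ : IsPrimitiveRoot ζ p) (x : Kˣ) (v : Pl K) (a a' : Kˣ) :
    b1 p ζ v x (a * a') = b1 p ζ v x a + b1 p ζ v x a' := by
  unfold b1
  split_ifs with h
  · rw [add_zero]
  · exact B_mul_right hp hζ h x a a'

theorem lin {p k : ℕ} (hp : p.Prime) (hp2 : p ≠ 2) (hR : Rk p k) {K : Type} [Field K]
    [NumberField K] {z : K} (hz : IsPrimitiveRoot z (p ^ (k + 1))) {x : Kˣ} (hx : Pk p (k + 1) x) :
    ∃ t : Pl K → ZMod p, ∀ a : Kˣ, Sk p (k + 1) z x a = em p k (∑ᶠ v, t v * b1 p (z ^ p ^ k) v x a) := by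
  have hζ : IsPrimitiveRoot (z ^ p ^ k) p := hz.pow (pow_pos hp.pos _) (pow_succ p k)
  choose g hg using fun a : Kˣ => sk_em hp hR hz hx a
  have hsub : ∀ s t : ZMod p, em p k s = em p k t → s = t := by
    intro s t h
    have h1 := em_add (k := k) hp (s - t) t
    rw [sub_add_cancel, h] at h1
    exact sub_eq_zero.1 (em_inj hp (right_eq_add.1 h1))
  obtain ⟨t, ht⟩ := lin_ext hp (fun v a => b1 p (z ^ p ^ k) v x a) (lin_mul hp hζ x)
    (by
      intro a
      refine (finite_B hp hζ x a).subset fun v hv => ?_
      rw [Set.mem_ofPred_eq] at hv ⊢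
      unfold b1 at hv
      split_ifs at hv with h
      · exact absurd rfl hv
      · exact ⟨h, hv⟩)
    g
    (by
      intro a b
      apply hsub
      rw [← hg, em_add hp, ← hg, ← hg]
      exact sk_mul_right hp hz x a b)
    (by
      intro a ha
      apply em_inj hp (k := k)
      rw [← hg]
      exact kil hp hp2 hR hz hx ha)
  exact ⟨t, fun a => by rw [hg a, ht a]⟩

end H57.RQ
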