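import Pool.Agent.H57.RQ.Col

/-!
# [H57 RQ KAP] weights for all `x`, 100-150 lines. File Pool/Agent/H57/RQ/Kap.lean

Choose `t x` from `lin` for every `x` with `Pk p (k+1) x`. Fix `v₀ ∤ p`. `pn S`: for every finite set `S` of primes `∤ p` there is `x` with `Pk p (k+1) x` and `ord v x = 1` for `v ∈ S` (`wap`, `exists_unif`), so
`b1_v(x, ·) ≠ 0` for `v ∈ S` (`exists_lg`, `B_unit`, `b1_symm`). `κ v = t x v - t x v₀` for such an `x` for `S = {v, v₀}` (independent of `x`: `kap_one`), `κ v₀ = 0`.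
For `x` with some `b1_(v₁)(x, ·) ≠ 0`: for all `v` with `b1_v(x, ·) ≠ 0`: `t x v - t x v₁ = t y v - t y v₁ = κ v - κ v₁` (`y` for `S = {v, v₁, v₀}`; `kap_one`), so
`∑ t x v b1_v = ∑ κ v b1_v + (t x v₁ - κ v₁) ∑ b1_v = ∑ κ v b1_v` (`Ro`; `pk_le`: `Pk p (k+1) x → Pk p 1 x`). If all `b1_v(x, ·) = 0` both sides are `0`.
-/

set_option autoImplicit false

open scoped NumberField
open IsDedekindDomain
open scoped Classical

noncomputable section

namespace H57.RQ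

open H63.MA

theorem b1_unif {K : Type} [Field K] [NumberField K] {p : ℕ} {ζ : K} (hp : p.Prime)
    (hζ : IsPrimitiveRoot ζ p) {v : Pl K} (hv : ¬ Above p v) {x : Kˣ} (hx : ord v x = 1) :
    ∃ a, b1 p ζ v x a ≠ 0 := by
  have : Fact p.Prime := ⟨hp⟩
  obtain ⟨a, ha, ha1⟩ := exists_lg hp hζ hv 1
  refine ⟨a, ?_⟩
  unfold b1
  rw [if_neg hv, B_symm hp hζ hv, B_unit hp hζ hv ha, hx, ha1, Int.cast_one, mul_one]
  exact neg_ne_zero.2 one_ne_zero

theorem pn {K : Type} [Field K] [NumberField K] {p : ℕ} (hp : p.Prime) (hp2 : p ≠ 2) (k : ℕ)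
    (S : Finset (Pl K)) (hS : ∀ v ∈ S, ¬ Above p v) : ∃ x : Kˣ, Pk p k x ∧ ∀ v ∈ S, ord v x = 1 := by
  choose π hπ using fun v : Pl K => exists_unif v
  obtain ⟨x, hx, hx1⟩ := wap hp (k + 1) S hS π
  refine ⟨x, dp_pk hp hp2 hx, fun v hv => ?_⟩
  have h1 := ord_of_one1 (hx1 v hv)
  rw [ord_mul, ord_inv, hπ] at h1
  omega

private theorem kap_pk1 {K : Type} [Field K] [NumberField K] {p : ℕ} (hp : p.Prime) (k : ℕ)
    {x : Kˣ} (hx : Pk p (k + 1) x) : Pk p 1 x := by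
  induction k with
  | zero => exact hx
  | succ k ih => exact ih (pk_le hp hx)

private theorem kap_above {K : Type} [Field K] [NumberField K] {p : ℕ} {ζ : K} {v : Pl K} {x : Kˣ}
    (h : ∃ a, b1 p ζ v x a ≠ 0) : ¬ Above p v := by
  obtain ⟨a, ha⟩ := h
  intro hv
  unfold b1 at ha
  rw [if_pos hv] at ha
  exact ha rfl

theorem kap {p k : ℕ} (hp : p.Prime) (hp2 : p ≠ 2) (hO : Ro p) (hR : Rk p k) {K : Type} [Field K]
    [NumberField K] {z : K} (hz : IsPrimitiveRoot z (p ^ (k + 1))) :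
    ∃ κ : Pl K → ZMod p, KP p k z κ := by
  have hζ : IsPrimitiveRoot (z ^ p ^ k) p := hz.pow (pow_pos hp.pos _) (pow_succ p k)
  by_cases hv0 : ∃ v₀ : Pl K, ¬ Above p v₀
  swap
  · refine ⟨0, fun x hx a => ?_⟩
    obtain ⟨t, ht⟩ := lin hp hp2 hR hz hx
    rw [ht a]
    congr 1
    refine finsum_congr fun v => ?_
    have h1 : b1 p (z ^ p ^ k) v x a = 0 := by
      by_contra h
      exact hv0 ⟨v, kap_above ⟨a, h⟩⟩
    rw [h1, mul_zero, mul_zero]
  obtain ⟨v₀, hv0⟩ := hv0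
  have hex : ∀ S : Finset (Pl K), (∀ v ∈ S, ¬ Above p v) → ∃ x : Kˣ, ∃ t : Pl K → ZMod p,
      Pk p (k + 1) x ∧ (∀ v ∈ S, ord v x = 1) ∧
      ∀ a : Kˣ, Sk p (k + 1) z x a = em p k (∑ᶠ v, t v * b1 p (z ^ p ^ k) v x a) := by
    intro S hS
    obtain ⟨x, hx, hx1⟩ := pn hp hp2 (k + 1) S hS
    obtain ⟨t, ht⟩ := lin hp hp2 hR hz hx
    exact ⟨x, t, hx, hx1, ht⟩
  have hS2 : ∀ v : Pl K, ¬ Above p v → ∀ w ∈ ({v, v₀} : Finset (Pl K)), ¬ Above p w := by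
    intro v hv w hw
    rw [Finset.mem_insert, Finset.mem_singleton] at hw
    rcases hw with rfl | rfl
    · exact hv
    · exact hv0
  have hk : ∀ v : Pl K, ∃ κ : ZMod p, ¬ Above p v → ∀ (y : Kˣ) (u : Pl K → ZMod p),
      Pk p (k + 1) y → (∃ a, b1 p (z ^ p ^ k) v y a ≠ 0) → (∃ a, b1 p (z ^ p ^ k) v₀ y a ≠ 0) →
      (∀ a : Kˣ, Sk p (k + 1) z y a = em p k (∑ᶠ v, u v * b1 p (z ^ p ^ k) v y a)) →
      κ = u v - u v₀ := by
    intro v
    by_cases hv : Above p v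
    · exact ⟨0, fun h => absurd hv h⟩
    obtain ⟨x, t, hx, hx1, ht⟩ := hex {v, v₀} (hS2 v hv)
    refine ⟨t v - t v₀, fun _ y u hy h1 h2 hu => ?_⟩
    exact kap_one hp hp2 hO hR hz hx hy ht hu
      (b1_unif hp hζ hv (hx1 v (by simp))) (b1_unif hp hζ hv0 (hx1 v₀ (by simp))) h1 h2
  choose κ hκ using hk
  refine ⟨κ, fun x hx a => ?_⟩
  obtain ⟨t, ht⟩ := lin hp hp2 hR hz hx
  rw [ht a]
  congr 1
  by_cases hv1 : ∃ v₁ : Pl K, ∃ a, b1 p (z ^ p ^ k) v₁ x a ≠ 0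
  swap
  · refine finsum_congr fun v => ?_
    have h1 : b1 p (z ^ p ^ k) v x a = 0 := by
      by_contra h
      exact hv1 ⟨v, a, h⟩
    rw [h1, mul_zero, mul_zero]
  obtain ⟨v₁, hv1⟩ := hv1
  have hcmp : ∀ v : Pl K, b1 p (z ^ p ^ k) v x a ≠ 0 → t v = κ v + (t v₁ - κ v₁) := by
    intro v hv
    have hva : ¬ Above p v := kap_above ⟨a, hv⟩
    have hv1a : ¬ Above p v₁ := kap_above hv1
    obtain ⟨y, u, hy, hy1, hu⟩ := hex {v, v₁, v₀} (by
      intro w hw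
      rw [Finset.mem_insert, Finset.mem_insert, Finset.mem_singleton] at hw
      rcases hw with rfl | rfl | rfl
      · exact hva
      · exact hv1a
      · exact hv0)
    have h1 := b1_unif hp hζ hva (hy1 v (by simp))
    have h2 := b1_unif hp hζ hv1a (hy1 v₁ (by simp))
    have h3 := b1_unif hp hζ hv0 (hy1 v₀ (by simp))
    have h4 := hκ v hva y u hy h1 h3 hu
    have h5 := hκ v₁ hv1a y u hy h2 h3 hu
    have h6 := kap_one hp hp2 hO hR hz hx hy ht hu ⟨a, hv⟩ hv1 h1 h2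
    rw [h4, h5]
    linear_combination h6
  have h7 : ∀ v : Pl K, t v * b1 p (z ^ p ^ k) v x a =
      κ v * b1 p (z ^ p ^ k) v x a + (t v₁ - κ v₁) * b1 p (z ^ p ^ k) v x a := by
    intro v
    by_cases h : b1 p (z ^ p ^ k) v x a = 0
    · rw [h, mul_zero, mul_zero, mul_zero, add_zero]
    · rw [hcmp v h]
      ring
  have hfin := b1_fin hp hζ x a
  have : Fact p.Prime := ⟨hp⟩
  rw [finsum_congr h7, finsum_add_distrib, ← mul_finsum, hO K (z ^ p ^ k) hζ x (kap_pk1 hp k hx) a,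
    mul_zero, add_zero]
  · refine hfin.subset fun v hv h => ?_
    rw [Function.mem_support, h, mul_zero] at hv
    exact hv rfl
  · refine hfin.subset fun v hv h => ?_
    rw [Function.mem_support, h, mul_zero] at hv
    exact hv rfl

end H57.RQ
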