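import Pool.Agent.H57.RQ.Eta

/-!
# [H57 RQ TOW] the weights are constant, 120-180 lines. File Pool/Agent/H57/RQ/Tow.lean

`P K z κ` a predicate which implies `KP p k z κ`, with existence (`hE`) and constant difference in `K(η^(1/p))` (`hF`). Then `κ` is constant on the `v ∤ p`.
Claim for `j`, all `K`, `z`, `M`, `η`, `κ`: if `p ^ (M + j + 1)` does not divide `N v - 1`, `N v' - 1`, then `κ v = κ v'`. `j = 0`: `lg_v η ≠ 0` (`et_lg1`), `eta`.
`j → j + 1`: `L` from `kum_exists` for `η`, `κ'` from `hE`, `w` over `v`, `w'` over `v'` (`exists_over`). `Et p k (algebraMap z) (M+1) γ` for the root `γ` (`kum_norm_γ`: `N γ = η s ^ p`, so if `γ = y ^ p` then `η` is a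
`p`-th power) and `N w = N v`, or `N w = N v ^ p` and `v` is not split, `lg_v η ≠ 0`, `p ^ (M+1)` does not divide `N v - 1`, so `p ^ (M+2)` does not divide `N v ^ p - 1` (`split_case`, `nonsplit_case`, `spl_split`, `et_lg1`). So
`p ^ ((M+1) + j + 1)` does not divide `N w - 1`; the claim for `j` and `L`: `κ' w = κ' w'`, and `hF`.
-/

set_option autoImplicit false

open scoped NumberField
open IsDedekindDomain
open scoped Classical

noncomputable section

namespace H57.RQ

open H63.MA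

theorem tow_zero {K : Type} [Field K] [NumberField K] {p k : ℕ} (hp : p.Prime) {z : K}
    (hz : IsPrimitiveRoot z (p ^ (k + 1))) {M : ℕ} {η : Kˣ} (he : Et p k z M η) {v : Pl K}
    (hv : ¬ Above p v) (h : ¬ p ^ (M + 1) ∣ nm v - 1) : lg p (z ^ p ^ k) v η ≠ 0 := by
  intro h0
  obtain ⟨h1, h2⟩ := et_lg1 hp hz he hv
  rw [h0, eq_comm, ZMod.natCast_eq_zero_iff] at h2
  apply h
  have h3 := mul_dvd_mul_left (p ^ M) h2
  rwa [Nat.mul_div_cancel' h1, ← pow_succ] at h3

theorem tow_ord {K : Type} [Field K] [NumberField K] {p k : ℕ} (hp : p.Prime) {z : K} {M : ℕ}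
    {η : Kˣ} (he : Et p k z M η) (v : Pl K) : ord v η = 0 := by
  have h1 : η ^ p ^ M = 1 := by
    apply Units.ext
    rw [Units.val_pow_eq_pow_val, he.prim.pow_eq_one, Units.val_one]
  have h2 := ord_pow v η (p ^ M)
  rw [h1, ord_one] at h2
  rcases mul_eq_zero.1 h2.symm with h3 | h3
  · exact absurd (by exact_mod_cast h3) (pow_pos hp.pos M).ne'
  · exact h3

theorem tow_et {K : Type} [Field K] [NumberField K] {L : Type} [Field L] [NumberField L]
    [Algebra K L] {p k : ℕ} (hp : p.Prime) (hp2 : p ≠ 2) {z : K}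
    (hz : IsPrimitiveRoot z (p ^ (k + 1))) {M : ℕ} {η : Kˣ} (he : Et p k z M η)
    (H : Kum p K (z ^ p ^ k) η L) : Et p k (algebraMap K L z) (M + 1) H.γ := by
  have : Fact p.Prime := ⟨hp⟩
  have hζ := col_zeta hp hz
  refine ⟨?_, ?_, ?_, ?_⟩
  · have h1 : orderOf (H.γ : L) = p ^ (M + 1) := by
      apply orderOf_eq_prime_pow
      · intro h
        obtain ⟨m, hm⟩ : ∃ m, M = m + 1 := ⟨M - 1, by have := he.le; omega⟩
        rw [hm, pow_succ', pow_mul, H.hγ, ← map_pow] at h
        have h2 : (η : K) ^ p ^ m = 1 := by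
          apply (algebraMap K L).injective
          rw [h, map_one]
        have h3 := he.prim.dvd_of_pow_eq_one _ h2
        rw [hm] at h3
        have h4 := (Nat.pow_dvd_pow_iff_le_right hp.one_lt).1 h3
        omega
      · rw [pow_succ', pow_mul, H.hγ, ← map_pow, he.prim.pow_eq_one, map_one]
    rw [← h1]
    exact IsPrimitiveRoot.orderOf _
  · exact he.le.trans (Nat.le_succ M)
  · have h1 : M + 1 - (k + 1) = (M - (k + 1)) + 1 := by
      have := he.le
      omega
    rw [h1, pow_succ', pow_mul, H.hγ, ← map_pow, he.pow]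
  · rintro ⟨y, hy⟩
    obtain ⟨r, _, hr⟩ := kum_norm_γ hp hζ H (mone_odd hp hp2 K)
    apply he.npow
    refine ⟨Nm K L y * r⁻¹, ?_⟩
    rw [mul_pow, ← map_pow, hy, hr, inv_pow, mul_inv_cancel_right]

theorem tow_lte {p : ℕ} (hp : p.Prime) (hp2 : p ≠ 2) {n M : ℕ} (hM : 1 ≤ M) (hn : 1 < n)
    (h1 : p ^ M ∣ n - 1) (h2 : ¬ p ^ (M + 1) ∣ n - 1) : ¬ p ^ (M + 2) ∣ n ^ p - 1 := by
  have : Fact p.Prime := ⟨hp⟩
  have hd : p ∣ n - 1 := (dvd_pow_self p (by omega)).trans h1
  have hnd : ¬ p ∣ n := by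
    intro h
    have h3 := (Nat.dvd_sub h hd)
    have h4 : n - (n - 1) = 1 := by omega
    rw [h4] at h3
    exact hp.one_lt.ne' (Nat.dvd_one.1 h3)
  have h5 := padicValNat.pow_sub_pow (x := n) (y := 1) (p := p) (hp.odd_of_ne_two hp2) hn
    hd hnd (n := p) hp.ne_zero
  rw [one_pow, padicValNat_self] at h5
  have h6 : n - 1 ≠ 0 := by omega
  have h7 : n ^ p - 1 ≠ 0 := by
    have := Nat.one_lt_pow hp.ne_zero hn
    omega
  rw [padicValNat_dvd_iff_le h6] at h2
  rw [padicValNat_dvd_iff_le h7, h5]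
  omega

theorem tow_up {K : Type} [Field K] [NumberField K] {L : Type} [Field L] [NumberField L]
    [Algebra K L] {p k : ℕ} (hp : p.Prime) (hp2 : p ≠ 2) {z : K}
    (hz : IsPrimitiveRoot z (p ^ (k + 1))) {M : ℕ} {η : Kˣ} (he : Et p k z M η)
    (H : Kum p K (z ^ p ^ k) η L) {v : Pl K} (hv : ¬ Above p v) {w : Pl L} (hw : Over w v) {j : ℕ}
    (h : ¬ p ^ (M + (j + 1) + 1) ∣ nm v - 1) : ¬ p ^ (M + 1 + j + 1) ∣ nm w - 1 := by
  have hζ := col_zeta hp hz
  have hj : M + 1 + j + 1 = M + (j + 1) + 1 := by ring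
  rw [hj]
  rcases card_over hp hζ H v with h1 | h1
  · rcases nonsplit_case hp hζ H h1 hw with h2 | h2
    · rw [h2.2.1]
      exact h
    · have hns : lg p (z ^ p ^ k) v η ≠ 0 := by
        intro h3
        have h4 : Spl p (z ^ p ^ k) v η := by
          intro a
          rw [B_unit hp hζ hv (tow_ord hp he v), h3, mul_zero]
        rw [spl_split hp hζ H hv h4] at h1
        exact hp.one_lt.ne' h1
      have hd := (et_lg1 hp hz he hv).1
      have hnd : ¬ p ^ (M + 1) ∣ nm v - 1 := by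
        intro h3
        apply hns
        rw [(et_lg1 hp hz he hv).2, ZMod.natCast_eq_zero_iff]
        rw [pow_succ] at h3
        exact (Nat.dvd_div_iff_mul_dvd hd).2 h3
      have h5 := tow_lte hp hp2 (by have := he.le; omega) (one_lt_nm v) hd hnd
      rw [h2.2]
      intro h6
      exact h5 ((pow_dvd_pow p (by omega)).trans h6)
  · rw [(split_case hp hζ H h1 hw).2.1]
    exact h

theorem tow {p k : ℕ} (hp : p.Prime) (hp2 : p ≠ 2)
    (P : ∀ (K : Type) [Field K] [NumberField K], K → (Pl K → ZMod p) → Prop)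
    (hP : ∀ (K : Type) [Field K] [NumberField K] (z : K) (κ : Pl K → ZMod p), P K z κ → KP p k z κ)
    (hE : ∀ (K : Type) [Field K] [NumberField K] (z : K), IsPrimitiveRoot z (p ^ (k + 1)) →
      ∃ κ : Pl K → ZMod p, P K z κ)
    (hF : ∀ (K : Type) [Field K] [NumberField K] (L : Type) [Field L] [NumberField L] [Algebra K L]
      (z : K), IsPrimitiveRoot z (p ^ (k + 1)) → ∀ (M : ℕ) (η : Kˣ), Et p k z M η →
      Kum p K (z ^ p ^ k) η L → ∀ (κ : Pl K → ZMod p) (κ' : Pl L → ZMod p), P K z κ →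
      P L (algebraMap K L z) κ' → ∀ w₁ w₂ : Pl L, ¬ Above p w₁ → ¬ Above p w₂ →
      κ' w₁ - κ (dnv K w₁) = κ' w₂ - κ (dnv K w₂))
    (K : Type) [Field K] [NumberField K] (z : K) (hz : IsPrimitiveRoot z (p ^ (k + 1)))
    (κ : Pl K → ZMod p) (hκ : P K z κ) (v v' : Pl K) (hv : ¬ Above p v) (hv' : ¬ Above p v') :
    κ v = κ v' := by
  have claim : ∀ (j : ℕ) (K : Type) [Field K] [NumberField K] (z : K),
      IsPrimitiveRoot z (p ^ (k + 1)) → ∀ (M : ℕ) (η : Kˣ), Et p k z M η →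
      ∀ (κ : Pl K → ZMod p), P K z κ → ∀ v v' : Pl K, ¬ Above p v → ¬ Above p v' →
      ¬ p ^ (M + j + 1) ∣ nm v - 1 → ¬ p ^ (M + j + 1) ∣ nm v' - 1 → κ v = κ v' := by
    intro j
    induction j with
    | zero =>
      intro K _ _ z hz M η he κ hκ v v' hv hv' h h'
      exact eta hp hp2 hz he (hP K z κ hκ) hv hv' (tow_zero hp hz he hv h)
        (tow_zero hp hz he hv' h')
    | succ j ih =>
      intro K _ _ z hz M η he κ hκ v v' hv hv' h h'
      obtain ⟨L, i1, i2, i3, ⟨H⟩⟩ := kum_exists hp (col_zeta hp hz) he.npow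
      have hzL : IsPrimitiveRoot (algebraMap K L z) (p ^ (k + 1)) :=
        hz.map_of_injective (algebraMap K L).injective
      obtain ⟨κ', hκ'⟩ := hE L (algebraMap K L z) hzL
      obtain ⟨w, hw⟩ := exists_over (L := L) v
      obtain ⟨w', hw'⟩ := exists_over (L := L) v'
      have hwa : ¬ Above p w := fun hh => hv ((above_over hw p).1 hh)
      have hwa' : ¬ Above p w' := fun hh => hv' ((above_over hw' p).1 hh)
      have e1 := ih L (algebraMap K L z) hzL (M + 1) H.γ (tow_et hp hp2 hz he H) κ' hκ' w w'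
        hwa hwa' (tow_up hp hp2 hz he H hv hw h) (tow_up hp hp2 hz he H hv' hw' h')
      have e2 := hF K L z hz M η he H κ κ' hκ hκ' w w' hwa hwa'
      rw [below_unique (dnv_over K w) hw, below_unique (dnv_over K w') hw', e1] at e2
      exact sub_right_injective e2
  obtain ⟨M, η, he⟩ := et_ex hp hz
  have hbig : ∀ u : Pl K, nm u ≤ nm v + nm v' → ¬ p ^ (M + (nm v + nm v') + 1) ∣ nm u - 1 := by
    intro u hu hd
    have h1 := one_lt_nm u
    have h2 := Nat.le_of_dvd (by omega) hd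
    have h3 : M + (nm v + nm v') + 1 < p ^ (M + (nm v + nm v') + 1) := Nat.lt_pow_self hp.one_lt
    omega
  exact claim (nm v + nm v') K z hz M η he κ hκ v v' hv hv' (hbig v (by omega)) (hbig v' (by omega))

end H57.RQ
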