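import Pool.Agent.H63.MA.NormZ
import Pool.Agent.H63.MA.Hasse

/-!
# H57 RQ DEF: the reciprocity law of order `p ^ k` (MP_b39724_nt, Malle, all classes, stage 2)

`p` odd, `z ∈ K` a primitive `p ^ k`-th root of unity. `B p ζ v`, `lg p ζ v` of H63/MA are defined for every order; here for the order `p ^ k`.
* `Bk p k z v x a`: the tame symbol of order `p ^ k`, `0` above `p`. `Sk p k z x a`: the sum over all `v`. `b1 p ζ v`: the symbol of order `p` with values in `ZMod p`.
* `Pk p k x`: `x` is a `p ^ k`-th power locally above `p` (approximated to every precision). `Dp p n x`: `x` is `1` modulo more than `p ^ n` above `p`.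
* `Rk p k`: for all `K`, `z`: `Sk p k z x a = 0` for `x` with `Pk p k x` and all `a`. THEOREM (`Rec.lean`): `Rk p k` for all `k`.
* `em p k : ZMod p → ZMod (p ^ (k + 1))`, `s ↦ p ^ k s`.
* `KP p k z κ`: `Sk p (k + 1) z x a = p ^ k ∑ κ_v b1_v(x, a)` for all `x` with `Pk p (k + 1) x` and all `a` (`ζ = z ^ (p ^ k)`).
* `Et p k z M η`: `η` is a primitive `p ^ M`-th root of unity, `k + 1 ≤ M`, `η ^ (p ^ (M - (k + 1))) = z`, `η` is not a `p`-th power in `K`.

PROOF of the theorem, induction on `k`. Let `Rk p k` be known, `z` of order `p ^ (k + 1)`, `Pk p (k + 1) x`. The sum `Sk p (k + 1) z x a` is `0` modulo `p ^ k` (`bk_cast`), so it is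
`em (R(x, a))`. `kil`: `R(x, a) = 0` if all `b1_v(x, a) = 0`: if `x` is not a `p`-th power, `a` is a norm from `L = K(x^(1/p))` (`hasse_norm`), and
`Sk_K(x, N b) = Sk_L(x, b) = p Sk_L(γ, b) = 0` (`nc_sum`, `Rk p k` for `L`). `lin`: so `R(x, a) = ∑ t_x(v) b1_v(x, a)`. `col`, `kap`: `t_x(v) = κ_v + c_x`, so `KP p k z κ` for some `κ`.
`fnm`: `κ_w - κ_v` is constant for `w` over `v` in `K(η^(1/p))`. `eta`: `κ_v` is constant on the `v` where `η` is not a `p`-th power (explicit law `(N v - 1) / p ^ M`). `tow`: so `κ` is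
constant and `R = κ ∑ b1_v(x, a) = 0`. For `k = 0` the law of order `p` is known with weights `lam`, `KP p 0 ζ (1 - lam)`, and `tow` gives `lam = 1` (`lam`).
-/

set_option autoImplicit false

open scoped NumberField
open IsDedekindDomain
open scoped Classical

noncomputable section

namespace H57.RQ

open H63.MA

section defs

variable {K : Type} [Field K] [NumberField K]

/-- the tame symbol of order `p ^ k` -/
def Bk (p k : ℕ) (z : K) (v : Pl K) (x a : Kˣ) : ZMod (p ^ k) :=
  if Above p v then 0 else B (p ^ k) z v x a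

/-- the symbol of order `p` -/
def b1 (p : ℕ) (ζ : K) (v : Pl K) (x a : Kˣ) : ZMod p := if Above p v then 0 else B p ζ v x a

/-- the sum of the symbols -/
def Sk (p k : ℕ) (z : K) (x a : Kˣ) : ZMod (p ^ k) := ∑ᶠ v, Bk p k z v x a

/-- a `p ^ k`-th power locally above `p` -/
def Pk (p k : ℕ) (x : Kˣ) : Prop := ∀ v : Pl K, Above p v → ∀ n : ℕ, ∃ y : Kˣ,
  v.valuation K (((x * (y ^ p ^ k)⁻¹ : Kˣ) : K) - 1) < v.valuation K ((p : K) ^ n)

/-- close to `1` above `p` -/
def Dp (p n : ℕ) (x : Kˣ) : Prop := ∀ v : Pl K, Above p v →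
  v.valuation K ((x : K) - 1) < v.valuation K ((p : K) ^ n)

end defs

/-- the reciprocity law of order `p ^ k` -/
def Rk (p k : ℕ) : Prop := ∀ (K : Type) [Field K] [NumberField K] (z : K),
  IsPrimitiveRoot z (p ^ k) → ∀ x : Kˣ, Pk p k x → ∀ a : Kˣ, Sk p k z x a = 0

/-- multiplication by `p ^ k` -/
def em (p k : ℕ) (s : ZMod p) : ZMod (p ^ (k + 1)) := ((p ^ k * s.val : ℕ) : ZMod (p ^ (k + 1)))

section preds

variable {K : Type} [Field K] [NumberField K]

/-- the law of order `p ^ (k + 1)` up to a sum of symbols of order `p` with weights `κ` -/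
def KP (p k : ℕ) (z : K) (κ : Pl K → ZMod p) : Prop := ∀ x : Kˣ, Pk p (k + 1) x → ∀ a : Kˣ,
  Sk p (k + 1) z x a = em p k (∑ᶠ v, κ v * b1 p (z ^ p ^ k) v x a)

/-- a generator of the roots of unity of `p`-power order -/
structure Et (p k : ℕ) (z : K) (M : ℕ) (η : Kˣ) : Prop where
  prim : IsPrimitiveRoot (η : K) (p ^ M)
  le : k + 1 ≤ M
  pow : (η : K) ^ p ^ (M - (k + 1)) = z
  npow : ¬ IsPow p η

end preds

end H57.RQ
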